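import Pool.Agent.H37.LES.Defs

/-! L8: decomposition of a smooth symmetric matrix field into nine squares. -/

open MeasureTheory Set Filter Topology
open scoped ContDiff ENNReal Manifold
open H36.MHD

noncomputable section

namespace H37.LES

theorem exists_cut70 (K U : Set X) (hK : IsCompact K) (hU : IsOpen U) (hKU : K ⊆ U) :
    ∃ ζ : X → ℝ, ContDiff ℝ ∞ ζ ∧ HasCompactSupport ζ ∧ tsupport ζ ⊆ U ∧ (∀ z ∈ K, ζ z = 1) ∧
      ∀ z, 0 ≤ ζ z ∧ ζ z ≤ 1 := by
  obtain ⟨L, hL, hKL, hLU⟩ := exists_compact_between hK hU hKU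
  obtain ⟨f, hf1, hf0, hf⟩ := exists_contMDiffMap_one_nhds_of_subset_interior (n := (⊤ : ℕ∞)) 𝓘(ℝ, X)
    hK.isClosed hKL
  have hsupp : tsupport (f : X → ℝ) ⊆ L := by
    apply closure_minimal _ hL.isClosed
    intro x hx
    by_contra h
    exact hx (hf0 x h)
  refine ⟨f, f.contMDiff.contDiff, HasCompactSupport.of_support_subset_isCompact hL
    (subset_closure.trans hsupp), hsupp.trans hLU, fun z hz => hf1.self_of_nhdsSet z hz,
    fun z => hf z⟩

/-- the nine directions -/
def bq : Fin 9 → V3 := ![![1, 0, 0], ![0, 1, 0], ![0, 0, 1], ![1, 1, 0], ![1, 0, 1], ![0, 1, 1],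
  ![1, -1, 0], ![1, 0, -1], ![0, 1, -1]]

/-- the nine coordinates -/
def lq : Fin 9 → Fin 3 := ![1, 2, 0, 2, 1, 0, 2, 1, 0]

/-- the nine coefficients -/
def cq (N : ℝ) (S : Fin 3 → Fin 3 → ℝ) : Fin 9 → ℝ :=
  ![2 * N + S 0 0, 2 * N + S 1 1, 2 * N + S 2 2, (N + S 0 1) / 2, (N + S 0 2) / 2, (N + S 1 2) / 2,
    (N - S 0 1) / 2, (N - S 0 2) / 2, (N - S 1 2) / 2]

theorem cq_sum (N ζ : ℝ) (S : Fin 3 → Fin 3 → ℝ) (hS : ∀ i j, S i j = S j i) (i j : Fin 3) :
    ∑ q, (ζ ^ 2 * cq N S q) * bq q i * bq q j = ζ ^ 2 * S i j + if i = j then 4 * ζ ^ 2 * N else 0 := by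
  have h10 := hS 1 0
  have h20 := hS 2 0
  have h21 := hS 2 1
  fin_cases i <;> fin_cases j <;>
    simp [Fin.sum_univ_succ, cq, bq, h10, h20, h21] <;> ring

theorem cq_pos (N : ℝ) (S : Fin 3 → Fin 3 → ℝ) (hN : ∀ i j, |S i j| < N) (q : Fin 9) :
    0 < cq N S q := by
  have h := fun i j => abs_lt.mp (hN i j)
  have hN0 : 0 < N := (abs_nonneg _).trans_lt (hN 0 0)
  fin_cases q <;> simp [cq] <;> first
    | linarith [(h 0 0).1, (h 1 1).1, (h 2 2).1]
    | linarith [(h 0 1).1, (h 0 2).1, (h 1 2).1, (h 0 1).2, (h 0 2).2, (h 1 2).2]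

theorem cq_le (N : ℝ) (S : Fin 3 → Fin 3 → ℝ) (hN : ∀ i j, |S i j| < N) (q : Fin 9) :
    cq N S q ≤ 3 * N := by
  have h := fun i j => abs_lt.mp (hN i j)
  have hN0 : 0 < N := (abs_nonneg _).trans_lt (hN 0 0)
  fin_cases q <;> simp [cq] <;>
    linarith [(h 0 0).2, (h 1 1).2, (h 2 2).2, (h 0 1).1, (h 0 2).1, (h 1 2).1, (h 0 1).2,
      (h 0 2).2, (h 1 2).2]

theorem sum_sq_le70 (f : Fin 3 → ℝ) (hf : ∀ i, 0 ≤ f i) : ∑ i, f i ^ 2 ≤ (∑ i, f i) ^ 2 := by
  rw [Fin.sum_univ_three, Fin.sum_univ_three]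
  nlinarith [mul_nonneg (hf 0) (hf 1), mul_nonneg (hf 0) (hf 2), mul_nonneg (hf 1) (hf 2)]

/-- the measure on the cylinder is finite -/
theorem mu_finite70 (P : Prob) : IsFiniteMeasure P.μ := by
  constructor
  rw [Measure.restrict_apply_univ]
  have : cyl P.Ω P.T ⊆ Icc 0 P.T ×ˢ closure P.Ω :=
    prod_mono Ioo_subset_Icc_self subset_closure
  have hc : IsCompact (Icc 0 P.T ×ˢ closure P.Ω) := isCompact_Icc.prod P.hb.isCompact_closure
  exact (measure_mono this).trans_lt hc.measure_lt_top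

theorem decomposition : ∃ (l : Fin 9 → Fin 3) (b : Fin 9 → V3), (∀ q, b q (l q) = 0) ∧
    (∀ q i, |b q i| ≤ 1) ∧
    ∀ (P : Prob) (S : Fin 3 → Fin 3 → X → ℝ), (∀ i j, ContDiff ℝ ∞ (S i j)) →
      (∀ i j, HasCompactSupport (S i j)) → (∀ i j, tsupport (S i j) ⊆ cyl P.Ω P.T) →
      (∀ i j z, S i j z = S j i z) → ∀ η, 0 < η →
      ∃ (a : Fin 9 → X → ℝ) (c : X → ℝ), (∀ q, ContDiff ℝ ∞ (a q)) ∧
        (∀ q, HasCompactSupport (a q)) ∧ (∀ q, tsupport (a q) ⊆ cyl P.Ω P.T) ∧ Continuous c ∧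
        (∀ z i j, ∑ q, (a q z) ^ 2 * b q i * b q j = S i j z + if i = j then c z else 0) ∧
        (∀ q, ∫ z, (a q z) ^ 2 ∂P.μ ≤ 20 * P.L1 S + η) := by
  refine ⟨lq, bq, ?_, ?_, ?_⟩
  · intro q; fin_cases q <;> simp [lq, bq]
  · intro q i; fin_cases q <;> fin_cases i <;> simp [bq]
  intro P S hS hSc hSs hsymm η hη
  have := mu_finite70 P
  -- the cut-off
  set K : Set X := ⋃ i, ⋃ j, tsupport (S i j) with hK
  have hKc : IsCompact K := isCompact_iUnion fun i => isCompact_iUnion fun j => hSc i j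
  have hU : IsOpen (cyl P.Ω P.T) := isOpen_Ioo.prod P.hΩ
  have hKU : K ⊆ cyl P.Ω P.T := iUnion_subset fun i => iUnion_subset fun j => hSs i j
  obtain ⟨ζ, hζ, hζc, hζs, hζ1, hζ01⟩ := exists_cut70 K _ hKc hU hKU
  have hζS : ∀ i j z, ζ z ^ 2 * S i j z = S i j z := by
    intro i j z
    by_cases h : S i j z = 0
    · rw [h, mul_zero]
    · have : z ∈ K := mem_iUnion.mpr ⟨i, mem_iUnion.mpr ⟨j, subset_tsupport _ h⟩⟩
      rw [hζ1 z this]; ring
  -- the size function
  set V := P.μ.real univ with hV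
  have hV0 : 0 ≤ V := measureReal_nonneg
  set e := η / (3 * (V + 1)) with he
  have he0 : 0 < e := by positivity
  set N : X → ℝ := fun z => Real.sqrt (∑ i, ∑ j, S i j z ^ 2 + e ^ 2) with hN
  have hpos : ∀ z, 0 < ∑ i, ∑ j, S i j z ^ 2 + e ^ 2 := fun z => by positivity
  have hNs : ContDiff ℝ ∞ N := by
    apply ContDiff.sqrt _ (fun z => (hpos z).ne')
    exact (ContDiff.sum fun i _ => ContDiff.sum fun j _ => (hS i j).pow 2).add contDiff_const
  have hlt : ∀ z i j, |S i j z| < N z := by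
    intro z i j
    rw [hN]
    apply Real.lt_sqrt_of_sq_lt
    rw [sq_abs]
    have h1 : S i j z ^ 2 ≤ ∑ j, S i j z ^ 2 :=
      Finset.single_le_sum (f := fun j => S i j z ^ 2) (fun j _ => sq_nonneg _)
        (Finset.mem_univ j)
    have h2 : ∑ j, S i j z ^ 2 ≤ ∑ i, ∑ j, S i j z ^ 2 :=
      Finset.single_le_sum (f := fun i => ∑ j, S i j z ^ 2)
        (fun i _ => Finset.sum_nonneg fun j _ => sq_nonneg _) (Finset.mem_univ i)
    have : 0 < e ^ 2 := by positivity
    linarith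
  have hNle : ∀ z, N z ≤ ∑ i, ∑ j, |S i j z| + e := by
    intro z
    rw [hN]
    apply Real.sqrt_le_iff.mpr
    have h0 : ∀ i, 0 ≤ ∑ j, |S i j z| := fun i => Finset.sum_nonneg fun j _ => abs_nonneg _
    have h00 : 0 ≤ ∑ i, ∑ j, |S i j z| := Finset.sum_nonneg fun i _ => h0 i
    refine ⟨by positivity, ?_⟩
    have h1 : ∑ i, ∑ j, S i j z ^ 2 ≤ (∑ i, ∑ j, |S i j z|) ^ 2 := by
      have ha : ∀ i, ∑ j, S i j z ^ 2 ≤ (∑ j, |S i j z|) ^ 2 := fun i => by
        have := sum_sq_le70 (fun j => |S i j z|) (fun j => abs_nonneg _)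
        simpa [sq_abs] using this
      calc ∑ i, ∑ j, S i j z ^ 2 ≤ ∑ i, (∑ j, |S i j z|) ^ 2 :=
            Finset.sum_le_sum fun i _ => ha i
        _ ≤ (∑ i, ∑ j, |S i j z|) ^ 2 := sum_sq_le70 _ h0
    nlinarith
  have hcq : ∀ q, ContDiff ℝ ∞ (fun z => cq (N z) (fun i j => S i j z) q) := by
    intro q
    have h00 := hS 0 0
    have h11 := hS 1 1
    have h22 := hS 2 2
    have h01 := hS 0 1
    have h02 := hS 0 2
    have h12 := hS 1 2
    fin_cases q <;> simp only [cq] <;> simp <;> fun_prop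
  set a : Fin 9 → X → ℝ := fun q z => ζ z * Real.sqrt (cq (N z) (fun i j => S i j z) q) with ha
  have hcpos : ∀ q z, 0 < cq (N z) (fun i j => S i j z) q := fun q z => cq_pos _ _ (hlt z) q
  have ha2 : ∀ q z, a q z ^ 2 = ζ z ^ 2 * cq (N z) (fun i j => S i j z) q := by
    intro q z
    rw [ha]
    simp only
    rw [mul_pow, Real.sq_sqrt (hcpos q z).le]
  have hasupp : ∀ q, tsupport (a q) ⊆ tsupport ζ := by
    intro q
    apply closure_mono
    intro z hz h0
    apply hz
    simp [ha, h0]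
  refine ⟨a, fun z => 4 * ζ z ^ 2 * N z, ?_, ?_, ?_, ?_, ?_, ?_⟩
  · intro q
    exact hζ.mul (ContDiff.sqrt (hcq q) (fun z => (hcpos q z).ne'))
  · intro q
    exact hζc.mono' (subset_closure.trans (hasupp q))
  · intro q
    exact (hasupp q).trans hζs
  · exact ((continuous_const.mul (hζ.continuous.pow 2)).mul hNs.continuous)
  · intro z i j
    have := cq_sum (N z) (ζ z) (fun i j => S i j z) (fun i j => hsymm i j z) i j
    simp only [hζS] at this
    rw [← this]
    exact Finset.sum_congr rfl fun q _ => by rw [ha2]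
  · intro q
    have hSint : ∀ i j, Integrable (fun z => |S i j z|) P.μ := fun i j =>
      (((hS i j).continuous.integrable_of_hasCompactSupport (hSc i j)).integrableOn).abs
    have hint : Integrable (fun z => 3 * (∑ i, ∑ j, |S i j z| + e)) P.μ := by
      apply Integrable.const_mul
      exact (integrable_finsetSum _ fun i _ => integrable_finsetSum _ fun j _ =>
        hSint i j).add (integrable_const e)
    calc ∫ z, (a q z) ^ 2 ∂P.μ ≤ ∫ z, 3 * (∑ i, ∑ j, |S i j z| + e) ∂P.μ := by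
          apply integral_mono_of_nonneg (Eventually.of_forall fun z => sq_nonneg _) hint
          refine Eventually.of_forall fun z => ?_
          simp only
          rw [ha2]
          have h1 := cq_le (N z) (fun i j => S i j z) (hlt z) q
          have h2 := hNle z
          have h3 : ζ z ^ 2 ≤ 1 := by
            have := hζ01 z
            nlinarith
          calc ζ z ^ 2 * cq (N z) (fun i j => S i j z) q ≤ 1 * cq (N z) (fun i j => S i j z) q :=
                mul_le_mul_of_nonneg_right h3 (hcpos q z).le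
            _ ≤ 3 * (∑ i, ∑ j, |S i j z| + e) := by linarith
      _ = 3 * P.L1 S + 3 * e * V := by
          rw [integral_const_mul, integral_add _ (integrable_const e), integral_const,
            integral_finsetSum _ fun i _ => integrable_finsetSum _ fun j _ => hSint i j]
          · have : ∀ i, ∫ z, ∑ j, |S i j z| ∂P.μ = ∑ j, ∫ z, |S i j z| ∂P.μ := fun i =>
              integral_finsetSum _ fun j _ => hSint i j
            simp only [this]
            unfold Prob.L1
            rw [smul_eq_mul]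
            ring
          · exact integrable_finsetSum _ fun i _ => integrable_finsetSum _ fun j _ => hSint i j
      _ ≤ 20 * P.L1 S + η := by
          have hL : 0 ≤ P.L1 S := Finset.sum_nonneg fun i _ => Finset.sum_nonneg fun j _ =>
            integral_nonneg fun z => abs_nonneg _
          have h1 : 3 * e * V ≤ η := by
            rw [he]
            have : 3 * (η / (3 * (V + 1))) * V = η * (V / (V + 1)) := by
              field_simp
            rw [this]
            have h2 : V / (V + 1) ≤ 1 := by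
              rw [div_le_one (by positivity)]; linarith
            nlinarith
          linarith

end H37.LES
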