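import Pool.Agent.H37.LES.Defs

/-! L3: the building block. -/

open MeasureTheory Set Filter Topology
open scoped ContDiff
open H36.MHD

noncomputable section

namespace H37.LES

/-- the matrix of `x ↦ -M × x`, i.e. `curl (A M) = cc M ∇A` for constant `M` -/
def cc (M : V3) : Fin 3 → Fin 3 → ℝ :=
  ![![0, M 2, -M 1], ![-M 2, 0, M 0], ![M 1, -M 0, 0]]

theorem cc_anti (M : V3) (i j : Fin 3) : cc M i j = -cc M j i := by
  fin_cases i <;> fin_cases j <;> simp [cc]

theorem cc_mvec (l : Fin 3) (b : V3) (hbl : b l = 0) (i : Fin 3) :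
    cc (mvec l b) i l = b i := by
  fin_cases l <;> fin_cases i <;> simp [cc, mvec, cross] <;>
    simpa using hbl.symm

/-- the oscillating factor -/
def oscf (Ψ : ℝ → ℝ) (l : Fin 3) (lam : ℝ) (y : X) : ℝ := Ψ (lam * y.2 l)

theorem oscf_smooth {Ψ : ℝ → ℝ} (hΨ : ContDiff ℝ ∞ Ψ) (l : Fin 3) (lam : ℝ) :
    ContDiff ℝ ∞ (oscf Ψ l lam) := by
  unfold oscf
  exact hΨ.comp (contDiff_const.mul ((contDiff_apply ℝ ℝ l).comp contDiff_snd))

theorem oscf_fderiv {Ψ : ℝ → ℝ} (hΨ : ContDiff ℝ ∞ Ψ) (l : Fin 3) (lam : ℝ) (z v : X) :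
    fderiv ℝ (oscf Ψ l lam) z v = lam * v.2 l * deriv Ψ (lam * z.2 l) := by
  have h1 : HasFDerivAt (fun y : X => lam * y.2 l)
      (lam • ((ContinuousLinearMap.proj (R := ℝ) (φ := fun _ : Fin 3 => ℝ) l).comp
        (ContinuousLinearMap.snd ℝ ℝ V3))) z := by
    have h0 : HasFDerivAt (fun y : X => y.2 l)
        ((ContinuousLinearMap.proj (R := ℝ) (φ := fun _ : Fin 3 => ℝ) l).comp
        (ContinuousLinearMap.snd ℝ ℝ V3)) z :=
      ((ContinuousLinearMap.proj (R := ℝ) (φ := fun _ : Fin 3 => ℝ) l).comp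
        (ContinuousLinearMap.snd ℝ ℝ V3)).hasFDerivAt
    exact h0.const_mul lam
  have h2 : HasDerivAt Ψ (deriv Ψ (lam * z.2 l)) (lam * z.2 l) :=
    ((hΨ.differentiable (by simp)) _).hasDerivAt
  have h3 : HasFDerivAt (oscf Ψ l lam) _ z := h2.comp_hasFDerivAt z h1
  rw [h3.fderiv]
  simp
  ring

theorem oscf_dx {Ψ : ℝ → ℝ} (hΨ : ContDiff ℝ ∞ Ψ) (l : Fin 3) (lam : ℝ) (j : Fin 3) (z : X) :
    dx j (oscf Ψ l lam) z = if j = l then lam * deriv Ψ (lam * z.2 l) else 0 := by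
  unfold dx
  rw [oscf_fderiv hΨ]
  by_cases h : j = l
  · subst h; simp
  · simp [h, Ne.symm h]

theorem oscf_dt {Ψ : ℝ → ℝ} (hΨ : ContDiff ℝ ∞ Ψ) (l : Fin 3) (lam : ℝ) (z : X) :
    dt (oscf Ψ l lam) z = 0 := by
  unfold dt
  rw [oscf_fderiv hΨ]
  simp

theorem deriv_smooth70 {Ψ : ℝ → ℝ} (hΨ : ContDiff ℝ ∞ Ψ) : ContDiff ℝ ∞ (deriv Ψ) :=
  (contDiff_infty_iff_deriv.mp hΨ).2

/-- product with the oscillating factor -/
theorem mosc_dx {g : X → ℝ} (hg : ContDiff ℝ ∞ g) {Ψ : ℝ → ℝ} (hΨ : ContDiff ℝ ∞ Ψ) (l : Fin 3)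
    (lam : ℝ) (j : Fin 3) (z : X) :
    dx j (fun y => g y * oscf Ψ l lam y) z = dx j g z * oscf Ψ l lam z +
      if j = l then lam * (g z * oscf (deriv Ψ) l lam z) else 0 := by
  rw [dx_mul hg (oscf_smooth hΨ l lam), oscf_dx hΨ]
  by_cases h : j = l
  · simp only [h, if_true, oscf]; ring
  · simp only [h, if_false]; ring

theorem mosc_dt {g : X → ℝ} (hg : ContDiff ℝ ∞ g) {Ψ : ℝ → ℝ} (hΨ : ContDiff ℝ ∞ Ψ) (l : Fin 3)
    (lam : ℝ) (z : X) :
    dt (fun y => g y * oscf Ψ l lam y) z = dt g z * oscf Ψ l lam z := by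
  rw [dt_mul hg (oscf_smooth hΨ l lam), oscf_dt hΨ]
  ring

theorem block_eq1 (a : X → ℝ) (ha : ContDiff ℝ ∞ a) (Φ : ℝ → ℝ) (hΦ : ContDiff ℝ ∞ Φ) (l : Fin 3)
    (b : V3) (lam : ℝ) (i : Fin 3) (z : X) :
    block a Φ l b lam i z = lam⁻¹ ^ 2 * ∑ j, cc (mvec l b) i j *
      dx j (fun y => a y * oscf Φ l lam y) z := by
  have h : ∀ p j, dx j (fun y => a y * Φ (lam * y.2 l) * mvec l b p) z =
      mvec l b p * dx j (fun y => a y * oscf Φ l lam y) z := by
    intro p j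
    have hs : ContDiff ℝ ∞ (fun y => a y * oscf Φ l lam y) := ha.mul (oscf_smooth hΦ l lam)
    have := dx_mul hs (contDiff_const (c := mvec l b p)) j z
    have h0 : dx j (fun _ : X => mvec l b p) z = 0 := by unfold dx; simp
    rw [h0, mul_zero, zero_add] at this
    exact this
  unfold block
  congr 1
  simp only [h]
  fin_cases i <;> simp [curlOf, cc, Fin.sum_univ_three] <;> ring

theorem block_eq2 (a : X → ℝ) (ha : ContDiff ℝ ∞ a) (Φ : ℝ → ℝ) (hΦ : ContDiff ℝ ∞ Φ) (l : Fin 3)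
    (b : V3) (hbl : b l = 0) (lam : ℝ) (hlam : lam ≠ 0) (i : Fin 3) (z : X) :
    block a Φ l b lam i z = lam⁻¹ ^ 2 * (∑ j, cc (mvec l b) i j * (dx j a z * oscf Φ l lam z)) +
      lam⁻¹ * (b i * (a z * oscf (deriv Φ) l lam z)) := by
  rw [block_eq1 a ha Φ hΦ]
  simp only [mosc_dx ha hΦ]
  have : ∑ j, cc (mvec l b) i j * (dx j a z * oscf Φ l lam z +
      if j = l then lam * (a z * oscf (deriv Φ) l lam z) else 0) =
      ∑ j, cc (mvec l b) i j * (dx j a z * oscf Φ l lam z) +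
        b i * (lam * (a z * oscf (deriv Φ) l lam z)) := by
    simp only [mul_add, Finset.sum_add_distrib, mul_ite, mul_zero, Finset.sum_ite_eq',
      Finset.mem_univ, if_true, cc_mvec l b hbl]
  rw [this, mul_add]
  congr 1
  field_simp

/-- periodic continuous functions are bounded -/
theorem per_bdd70 {Ψ : ℝ → ℝ} (hc : Continuous Ψ) (hper : ∀ s, Ψ (s + 1) = Ψ s) :
    ∃ M, 0 ≤ M ∧ ∀ s, |Ψ s| ≤ M := by
  obtain ⟨M, hM⟩ := isCompact_Icc.exists_bound_of_continuousOn (s := Icc (0:ℝ) 1) hc.continuousOn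
  refine ⟨max M 0, le_max_right _ _, fun s => ?_⟩
  have hp : Function.Periodic Ψ 1 := hper
  have : Ψ (Int.fract s) = Ψ s := by
    have := hp.sub_int_mul_eq (x := s) ⌊s⌋
    rw [mul_one, Int.self_sub_floor] at this
    exact this
  rw [← this]
  exact (hM _ ⟨Int.fract_nonneg s, (Int.fract_lt_one s).le⟩).trans (le_max_left _ _)

theorem cs_bdd70 {g : X → ℝ} (hg : Continuous g) (hc : HasCompactSupport g) :
    ∃ M, 0 ≤ M ∧ ∀ z, |g z| ≤ M := by
  obtain ⟨M, hM⟩ := hg.bounded_above_of_compact_support hc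
  exact ⟨max M 0, le_max_right _ _, fun z => (hM z).trans (le_max_left _ _)⟩

theorem hcs_dx70 {g : X → ℝ} (hc : HasCompactSupport g) (j : Fin 3) : HasCompactSupport (dx j g) :=
  hc.mono' ((subset_tsupport _).trans (tsupport_dx_subset g j))

theorem hcs_dt70 {g : X → ℝ} (hc : HasCompactSupport g) : HasCompactSupport (dt g) :=
  hc.mono' ((subset_tsupport _).trans (tsupport_dt_subset g))

/-- derivative of the linear combinations occurring here -/
theorem fd_lin70 (c0 c1 d : ℝ) (c : Fin 3 → ℝ) (f : Fin 3 → X → ℝ) (g : X → ℝ)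
    (hf : ∀ j, ContDiff ℝ ∞ (f j)) (hg : ContDiff ℝ ∞ g) (z v : X) :
    fderiv ℝ (fun z => c0 * (∑ j, c j * f j z) + c1 * (d * g z)) z v =
      c0 * (∑ j, c j * fderiv ℝ (f j) z v) + c1 * (d * fderiv ℝ g z v) := by
  have h1 : HasFDerivAt (fun z => ∑ j, c j * f j z) (∑ j, c j • fderiv ℝ (f j) z) z :=
    HasFDerivAt.fun_sum fun j _ => ((smooth_diff (hf j) z).hasFDerivAt.const_mul (c j))
  have h2 : HasFDerivAt (fun z => c1 * (d * g z)) (c1 • (d • fderiv ℝ g z)) z :=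
    ((smooth_diff hg z).hasFDerivAt.const_mul d).const_mul c1
  rw [((h1.const_mul c0).fun_add h2).fderiv]
  simp

theorem abs3_70 {p q T1 T2 T3 u1 u2 u3 : ℝ} (hp : 0 ≤ p) (hpq : p ≤ q) (h1 : |T1| ≤ u1)
    (h2 : |T2| ≤ u2) (h3 : |T3| ≤ u3) :
    |p * T1 + q * T2 + q * T3| ≤ q * u1 + q * u2 + q * u3 := by
  have hq : 0 ≤ q := hp.trans hpq
  refine (abs_add_le _ _).trans (add_le_add ((abs_add_le _ _).trans (add_le_add ?_ ?_)) ?_)
  · rw [abs_mul, abs_of_nonneg hp]
    exact mul_le_mul hpq h1 (abs_nonneg _) hq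
  · rw [abs_mul, abs_of_nonneg hq]
    exact mul_le_mul_of_nonneg_left h2 hq
  · rw [abs_mul, abs_of_nonneg hq]
    exact mul_le_mul_of_nonneg_left h3 hq

theorem block_props (a : X → ℝ) (ha : ContDiff ℝ ∞ a) (hac : HasCompactSupport a)
    (Φ : ℝ → ℝ) (hΦ : ContDiff ℝ ∞ Φ) (hper : ∀ s, Φ (s + 1) = Φ s) (l : Fin 3) (b : V3)
    (hbl : b l = 0) :
    ∃ C, 0 ≤ C ∧ ∀ lam, 1 ≤ lam →
      (∀ i, ContDiff ℝ ∞ (block a Φ l b lam i)) ∧
      (∀ i, tsupport (block a Φ l b lam i) ⊆ tsupport a) ∧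
      (∀ z, ∑ j, dx j (block a Φ l b lam j) z = 0) ∧
      (∀ i z, |block a Φ l b lam i z| ≤ C / lam) ∧
      (∀ i z, |dt (block a Φ l b lam i) z| ≤ C / lam) ∧
      (∀ i j z, |dx j (block a Φ l b lam i) z
        - (if j = l then a z * deriv (deriv Φ) (lam * z.2 l) * b i else 0)| ≤ C / lam) := by
  have hΦ1 : ContDiff ℝ ∞ (deriv Φ) := deriv_smooth70 hΦ
  have hΦ2 : ContDiff ℝ ∞ (deriv (deriv Φ)) := deriv_smooth70 hΦ1
  have hper1 : ∀ s, deriv Φ (s + 1) = deriv Φ s := fun s => by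
    have h : (fun s => Φ (s + 1)) = Φ := funext hper
    rw [← deriv_comp_add_const Φ 1 s]
    exact congrArg (fun g => deriv g s) h
  obtain ⟨M0, hM0, hb0⟩ := per_bdd70 hΦ.continuous hper
  obtain ⟨M1, hM1, hb1⟩ := per_bdd70 hΦ1.continuous hper1
  set M := M0 + M1 with hM
  have hMn : 0 ≤ M := by positivity
  have hosc0 : ∀ lam z, |oscf Φ l lam z| ≤ M := fun lam z => (hb0 _).trans (by rw [hM]; linarith)
  have hosc1 : ∀ lam z, |oscf (deriv Φ) l lam z| ≤ M := fun lam z =>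
    (hb1 _).trans (by rw [hM]; linarith)
  -- bounds for the amplitude
  obtain ⟨A0, hA0, ha0⟩ := cs_bdd70 ha.continuous hac
  have h1 : ∀ j, ∃ A, 0 ≤ A ∧ ∀ z, |dx j a z| ≤ A := fun j =>
    cs_bdd70 (smooth_dx ha j).continuous (hcs_dx70 hac j)
  choose A1 hA1 ha1 using h1
  have h2 : ∀ j k, ∃ A, 0 ≤ A ∧ ∀ z, |dx j (dx k a) z| ≤ A := fun j k =>
    cs_bdd70 (smooth_dx (smooth_dx ha k) j).continuous (hcs_dx70 (hcs_dx70 hac k) j)
  choose A2 hA2 ha2 using h2
  obtain ⟨A3, hA3, ha3⟩ := cs_bdd70 (smooth_dt ha).continuous (hcs_dt70 hac)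
  have h4 : ∀ k, ∃ A, 0 ≤ A ∧ ∀ z, |dt (dx k a) z| ≤ A := fun k =>
    cs_bdd70 (smooth_dt (smooth_dx ha k)).continuous (hcs_dt70 (hcs_dx70 hac k))
  choose A4 hA4 ha4 using h4
  set A := A0 + (∑ j, A1 j) + (∑ j, ∑ k, A2 j k) + A3 + ∑ k, A4 k with hA
  have s1 : 0 ≤ ∑ j, A1 j := Finset.sum_nonneg fun j _ => hA1 j
  have s2 : 0 ≤ ∑ j, ∑ k, A2 j k := Finset.sum_nonneg fun j _ => Finset.sum_nonneg fun k _ =>
    hA2 j k
  have s4 : 0 ≤ ∑ k, A4 k := Finset.sum_nonneg fun k _ => hA4 k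
  have hAn : 0 ≤ A := by positivity
  have b0 : ∀ z, |a z| ≤ A := fun z => (ha0 z).trans (by rw [hA]; linarith)
  have b1 : ∀ j z, |dx j a z| ≤ A := fun j z => (ha1 j z).trans (by
    have := Finset.single_le_sum (f := A1) (fun j _ => hA1 j) (Finset.mem_univ j)
    rw [hA]; linarith)
  have b2 : ∀ j k z, |dx j (dx k a) z| ≤ A := fun j k z => (ha2 j k z).trans (by
    have h1 : A2 j k ≤ ∑ k, A2 j k :=
      Finset.single_le_sum (f := fun k => A2 j k) (fun k _ => hA2 j k) (Finset.mem_univ k)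
    have h2 : ∑ k, A2 j k ≤ ∑ j, ∑ k, A2 j k :=
      Finset.single_le_sum (f := fun j => ∑ k, A2 j k)
        (fun j _ => Finset.sum_nonneg fun k _ => hA2 j k) (Finset.mem_univ j)
    rw [hA]; linarith)
  have b3 : ∀ z, |dt a z| ≤ A := fun z => (ha3 z).trans (by rw [hA]; linarith)
  have b4 : ∀ k z, |dt (dx k a) z| ≤ A := fun k z => (ha4 k z).trans (by
    have := Finset.single_le_sum (f := A4) (fun j _ => hA4 j) (Finset.mem_univ k)
    rw [hA]; linarith)
  -- bounds for the matrix and the vector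
  set m := mvec l b with hm
  set K := (∑ i, ∑ j, |cc m i j|) + ∑ i, |b i| with hK
  have sK1 : 0 ≤ ∑ i, ∑ j, |cc m i j| := Finset.sum_nonneg fun j _ => Finset.sum_nonneg fun k _ =>
    abs_nonneg _
  have sK2 : 0 ≤ ∑ i, |b i| := Finset.sum_nonneg fun j _ => abs_nonneg _
  have hKn : 0 ≤ K := by positivity
  have bc : ∀ i j, |cc m i j| ≤ K := fun i j => by
    have h1 : |cc m i j| ≤ ∑ k, |cc m i k| :=
      Finset.single_le_sum (f := fun k => |cc m i k|) (fun k _ => abs_nonneg _)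
        (Finset.mem_univ j)
    have h2 : ∑ k, |cc m i k| ≤ ∑ j, ∑ k, |cc m j k| :=
      Finset.single_le_sum (f := fun j => ∑ k, |cc m j k|)
        (fun j _ => Finset.sum_nonneg fun k _ => abs_nonneg _) (Finset.mem_univ i)
    rw [hK]; linarith
  have bb : ∀ i, |b i| ≤ K := fun i => by
    have : |b i| ≤ ∑ i, |b i| :=
      Finset.single_le_sum (f := fun i => |b i|) (fun k _ => abs_nonneg _) (Finset.mem_univ i)
    rw [hK]; linarith
  set Q := K * (A * M) with hQ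
  have hQn : 0 ≤ Q := by positivity
  have tb : ∀ c g o : ℝ, |c| ≤ K → |g| ≤ A → |o| ≤ M → |c * (g * o)| ≤ Q := by
    intro c g o hc hg ho
    rw [abs_mul, abs_mul]
    exact mul_le_mul hc (mul_le_mul hg ho (abs_nonneg _) hAn) (by positivity) hKn
  have sb : ∀ f : Fin 3 → ℝ, (∀ j, |f j| ≤ Q) → |∑ j, f j| ≤ 3 * Q := by
    intro f hf
    refine (Finset.abs_sum_le_sum_abs _ _).trans ((Finset.sum_le_sum fun j _ => hf j).trans ?_)
    simp
  refine ⟨7 * Q, by positivity, fun lam hlam => ?_⟩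
  have hl0 : 0 < lam := by linarith
  have hli : lam⁻¹ ≤ 1 := inv_le_one_of_one_le₀ hlam
  have hli0 : 0 < lam⁻¹ := inv_pos.mpr hl0
  have hsq : lam⁻¹ ^ 2 ≤ lam⁻¹ := by nlinarith
  have hdiv : ∀ c : ℝ, c / lam = lam⁻¹ * c := fun c => by rw [div_eq_mul_inv, mul_comm]
  have hfun : ∀ i, block a Φ l b lam i = fun z =>
      lam⁻¹ ^ 2 * (∑ j, cc m i j * (dx j a z * oscf Φ l lam z)) +
      lam⁻¹ * (b i * (a z * oscf (deriv Φ) l lam z)) := fun i =>
    funext fun z => block_eq2 a ha Φ hΦ l b hbl lam hl0.ne' i z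
  have hfs : ∀ j, ContDiff ℝ ∞ (fun z => dx j a z * oscf Φ l lam z) := fun j =>
    (smooth_dx ha j).mul (oscf_smooth hΦ l lam)
  have hgs : ContDiff ℝ ∞ (fun z => a z * oscf (deriv Φ) l lam z) :=
    ha.mul (oscf_smooth hΦ1 l lam)
  refine ⟨?_, ?_, ?_, ?_, ?_, ?_⟩
  · intro i
    rw [hfun]
    exact (contDiff_const.mul (ContDiff.sum fun j _ => contDiff_const.mul (hfs j))).add
      (contDiff_const.mul (contDiff_const.mul hgs))
  · intro i
    refine closure_minimal ?_ (isClosed_tsupport a)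
    intro z hz
    by_contra h
    apply hz
    rw [hfun]
    have h0 : a z = 0 := image_eq_zero_of_notMem_tsupport h
    have h1 : ∀ j, dx j a z = 0 := fun j => eq_zero_of_notMem (tsupport_dx_subset a j) h
    simp [h0, h1]
  · intro z
    have hA : ContDiff ℝ ∞ (fun y => a y * oscf Φ l lam y) := ha.mul (oscf_smooth hΦ l lam)
    set F := fun y => a y * oscf Φ l lam y with hF
    have h1 : ∀ i, block a Φ l b lam i = fun z =>
        lam⁻¹ ^ 2 * (∑ j, cc m i j * dx j F z) + 0 * (0 * F z) := fun i =>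
      funext fun z => by rw [block_eq1 a ha Φ hΦ]; ring
    have h2 : ∀ i, dx i (block a Φ l b lam i) z = lam⁻¹ ^ 2 * ∑ j, cc m i j * dx i (dx j F) z := by
      intro i
      rw [h1]
      have := fd_lin70 (lam⁻¹ ^ 2) 0 0 (fun j => cc m i j) (fun j => dx j F) F
        (fun j => smooth_dx hA j) hA z (0, Pi.single i 1)
      refine this.trans ?_
      rw [zero_mul, add_zero]
      rfl
    simp only [h2]
    rw [← Finset.mul_sum]
    have h3 : ∑ i, ∑ j, cc m i j * dx i (dx j F) z = 0 := by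
      have h4 : ∑ i, ∑ j, cc m i j * dx i (dx j F) z = -∑ i, ∑ j, cc m i j * dx i (dx j F) z := by
        conv_lhs => rw [Finset.sum_comm]
        rw [← Finset.sum_neg_distrib]
        refine Finset.sum_congr rfl fun i _ => ?_
        rw [← Finset.sum_neg_distrib]
        refine Finset.sum_congr rfl fun j _ => ?_
        rw [cc_anti m j i, dx_comm hA j i]
        ring
      linarith
    rw [h3, mul_zero]
  · intro i z
    rw [hfun, hdiv]
    simp only
    have e1 := sb (fun j => cc m i j * (dx j a z * oscf Φ l lam z)) fun j =>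
      tb _ _ _ (bc i j) (b1 j z) (hosc0 lam z)
    have e2 := tb _ _ _ (bb i) (b0 z) (hosc1 lam z)
    refine (abs_add_le _ _).trans ?_
    rw [abs_mul, abs_mul, abs_of_pos hli0, abs_of_pos (by positivity : 0 < lam⁻¹ ^ 2)]
    calc _ ≤ lam⁻¹ * (3 * Q) + lam⁻¹ * Q := add_le_add
          (mul_le_mul hsq e1 (abs_nonneg _) hli0.le) (mul_le_mul_of_nonneg_left e2 hli0.le)
      _ ≤ lam⁻¹ * (7 * Q) := by nlinarith [mul_nonneg hli0.le hQn]
  · intro i z
    have h1 : dt (block a Φ l b lam i) z =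
        lam⁻¹ ^ 2 * (∑ j, cc m i j * (dt (dx j a) z * oscf Φ l lam z)) +
        lam⁻¹ * (b i * (dt a z * oscf (deriv Φ) l lam z)) := by
      rw [hfun]
      refine (fd_lin70 (lam⁻¹ ^ 2) lam⁻¹ (b i) (fun j => cc m i j)
        (fun j => fun z => dx j a z * oscf Φ l lam z) _ hfs hgs z (1, 0)).trans ?_
      have e1 : ∀ j, fderiv ℝ (fun z => dx j a z * oscf Φ l lam z) z (1, 0) =
          dt (dx j a) z * oscf Φ l lam z := fun j => mosc_dt (smooth_dx ha j) hΦ l lam z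
      have e2 : fderiv ℝ (fun z => a z * oscf (deriv Φ) l lam z) z (1, 0) =
          dt a z * oscf (deriv Φ) l lam z := mosc_dt ha hΦ1 l lam z
      simp only [e1, e2]
    rw [h1, hdiv]
    have e1 := sb (fun j => cc m i j * (dt (dx j a) z * oscf Φ l lam z)) fun j =>
      tb _ _ _ (bc i j) (b4 j z) (hosc0 lam z)
    have e2 := tb _ _ _ (bb i) (b3 z) (hosc1 lam z)
    refine (abs_add_le _ _).trans ?_
    rw [abs_mul, abs_mul, abs_of_pos hli0, abs_of_pos (by positivity : 0 < lam⁻¹ ^ 2)]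
    calc _ ≤ lam⁻¹ * (3 * Q) + lam⁻¹ * Q := add_le_add
          (mul_le_mul hsq e1 (abs_nonneg _) hli0.le) (mul_le_mul_of_nonneg_left e2 hli0.le)
      _ ≤ lam⁻¹ * (7 * Q) := by nlinarith [mul_nonneg hli0.le hQn]
  · intro i j z
    have h1 : dx j (block a Φ l b lam i) z =
        lam⁻¹ ^ 2 * (∑ k, cc m i k * (dx j (dx k a) z * oscf Φ l lam z +
          if j = l then lam * (dx k a z * oscf (deriv Φ) l lam z) else 0)) +
        lam⁻¹ * (b i * (dx j a z * oscf (deriv Φ) l lam z +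
          if j = l then lam * (a z * oscf (deriv (deriv Φ)) l lam z) else 0)) := by
      rw [hfun]
      refine (fd_lin70 (lam⁻¹ ^ 2) lam⁻¹ (b i) (fun j => cc m i j)
        (fun j => fun z => dx j a z * oscf Φ l lam z) _ hfs hgs z (0, Pi.single j 1)).trans ?_
      have e1 : ∀ k, fderiv ℝ (fun z => dx k a z * oscf Φ l lam z) z (0, Pi.single j 1) = _ :=
        fun k => mosc_dx (smooth_dx ha k) hΦ l lam j z
      have e2 : fderiv ℝ (fun z => a z * oscf (deriv Φ) l lam z) z (0, Pi.single j 1) = _ :=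
        mosc_dx ha hΦ1 l lam j z
      simp only [e1, e2]
    have h2 : dx j (block a Φ l b lam i) z
        - (if j = l then a z * deriv (deriv Φ) (lam * z.2 l) * b i else 0) =
        lam⁻¹ ^ 2 * (∑ k, cc m i k * (dx j (dx k a) z * oscf Φ l lam z)) +
        lam⁻¹ * (b i * (dx j a z * oscf (deriv Φ) l lam z)) +
        lam⁻¹ * (if j = l then ∑ k, cc m i k * (dx k a z * oscf (deriv Φ) l lam z) else 0) := by
      rw [h1]
      by_cases h : j = l
      · simp only [h, if_true, mul_add, Finset.sum_add_distrib]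
        have e1 : ∑ k, cc m i k * (lam * (dx k a z * oscf (deriv Φ) l lam z)) =
            lam * ∑ k, cc m i k * (dx k a z * oscf (deriv Φ) l lam z) := by
          rw [Finset.mul_sum]
          exact Finset.sum_congr rfl fun k _ => by ring
        rw [e1]
        have e2 : a z * deriv (deriv Φ) (lam * z.2 l) = a z * oscf (deriv (deriv Φ)) l lam z := rfl
        rw [e2]
        generalize (∑ k, cc m i k * (dx k a z * oscf (deriv Φ) l lam z)) = T1
        generalize (∑ k, cc m i k * (dx l (dx k a) z * oscf Φ l lam z)) = T2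
        generalize a z * oscf (deriv (deriv Φ)) l lam z = T3
        generalize dx l a z * oscf (deriv Φ) l lam z = T4
        field_simp
        ring
      · simp only [h, if_false, add_zero, sub_zero, mul_zero]
    rw [h2, hdiv]
    have e1 := sb (fun k => cc m i k * (dx j (dx k a) z * oscf Φ l lam z)) fun k =>
      tb _ _ _ (bc i k) (b2 j k z) (hosc0 lam z)
    have e2 := tb _ _ _ (bb i) (b1 j z) (hosc1 lam z)
    have e3 : |(if j = l then ∑ k, cc m i k * (dx k a z * oscf (deriv Φ) l lam z) else 0)| ≤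
        3 * Q := by
      by_cases h : j = l
      · simp only [h, if_true]
        exact sb (fun k => cc m i k * (dx k a z * oscf (deriv Φ) l lam z)) fun k =>
          tb _ _ _ (bc i k) (b1 k z) (hosc1 lam z)
      · simp only [h, if_false, abs_zero]; positivity
    refine (abs3_70 (by positivity) hsq e1 e2 e3).trans (le_of_eq (by ring))

end H37.LES
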