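import Pool.Agent.H37.LES.Defs

/-! L1: a smooth periodic profile with normalised, strongly concentrated second derivative. -/

open MeasureTheory Set Filter Topology
open scoped ContDiff
open H36.MHD

noncomputable section

namespace H37.LES

/-- the basic profile -/
def prof (κ : ℝ) (s : ℝ) : ℝ := expNegInvGlue (Real.cos (2 * Real.pi * s) - 1 + κ)

theorem prof_smooth (κ : ℝ) : ContDiff ℝ ∞ (prof κ) := by
  unfold prof
  refine expNegInvGlue.contDiff.comp ?_
  exact ((Real.contDiff_cos.comp (contDiff_const.mul contDiff_id)).sub contDiff_const).add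
    contDiff_const

theorem prof_per (κ s : ℝ) : prof κ (s + 1) = prof κ s := by
  unfold prof
  rw [show 2 * Real.pi * (s + 1) = 2 * Real.pi * s + 2 * Real.pi by ring, Real.cos_add_two_pi]

theorem deriv_per70 {f : ℝ → ℝ} (hf : ∀ s, f (s + 1) = f s) (s : ℝ) :
    deriv f (s + 1) = deriv f s := by
  have h : (fun s => f (s + 1)) = f := funext hf
  have := deriv_comp_add_const f 1 s
  rw [← this]
  exact congrArg (fun g => deriv g s) h

theorem prof_zero {κ s : ℝ} (h : Real.cos (2 * Real.pi * s) ≤ 1 - κ) : prof κ s = 0 := by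
  unfold prof
  exact expNegInvGlue.zero_of_nonpos (by linarith)

/-- the second derivative vanishes off the support -/
theorem prof_dd_zero {κ s : ℝ} (h : Real.cos (2 * Real.pi * s) < 1 - κ) :
    deriv (deriv (prof κ)) s = 0 := by
  have ho : IsOpen {s : ℝ | Real.cos (2 * Real.pi * s) < 1 - κ} :=
    isOpen_lt (by fun_prop) continuous_const
  have h1 : prof κ =ᶠ[𝓝 s] fun _ => (0 : ℝ) := by
    filter_upwards [ho.mem_nhds h] with x hx using prof_zero hx.le
  have h2 : deriv (prof κ) =ᶠ[𝓝 s] deriv (fun _ => (0 : ℝ)) := h1.deriv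
  rw [h2.deriv_eq]
  simp

theorem prof_dd_ne {κ : ℝ} (hκ : 0 < κ) (hκ1 : κ ≤ 1) : ∃ s, deriv (deriv (prof κ)) s ≠ 0 := by
  by_contra hcon
  push Not at hcon
  have hd : Differentiable ℝ (prof κ) := (prof_smooth κ).differentiable (by simp)
  have hd2 : ContDiff ℝ ∞ (deriv (prof κ)) := (contDiff_infty_iff_deriv.mp (prof_smooth κ)).2
  have hc : ∀ s, deriv (prof κ) s = deriv (prof κ) 0 := fun s =>
    is_const_of_deriv_eq_zero (hd2.differentiable (by simp)) hcon s 0
  set c := deriv (prof κ) 0
  have hg : ∀ s, prof κ s - c * s = prof κ 0 := by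
    intro s
    have := is_const_of_deriv_eq_zero (f := fun s => prof κ s - c * s)
      (hd.sub (differentiable_id.const_mul c)) (fun x => by
        have h1 : HasDerivAt (fun s => prof κ s - c * s) (deriv (prof κ) x - c * 1) x :=
          (hd x).hasDerivAt.sub ((hasDerivAt_id x).const_mul c)
        rw [h1.deriv, hc x]; ring) s 0
    simpa using this
  have h1 := hg 1
  have hp : prof κ 1 = prof κ 0 := by
    have := prof_per κ 0
    rwa [zero_add] at this
  have hc0 : c = 0 := by rw [hp] at h1; linarith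
  have h2 := hg (1 / 2)
  rw [hc0, zero_mul, sub_zero] at h2
  have h3 : prof κ (1 / 2) = 0 := by
    apply prof_zero
    rw [show 2 * Real.pi * (1 / 2) = Real.pi by ring, Real.cos_pi]
    linarith
  have h4 : 0 < prof κ 0 := by
    unfold prof
    rw [mul_zero, Real.cos_zero]
    exact expNegInvGlue.pos_of_pos (by linarith)
  rw [← h2, h3] at h4
  exact lt_irrefl _ h4

theorem prof_int_pos {κ : ℝ} (hκ : 0 < κ) (hκ1 : κ ≤ 1) :
    0 < ∫ s in (0:ℝ)..1, (deriv (deriv (prof κ)) s) ^ 2 := by
  obtain ⟨s, hs⟩ := prof_dd_ne hκ hκ1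
  have hd2 : ContDiff ℝ ∞ (deriv (prof κ)) := (contDiff_infty_iff_deriv.mp (prof_smooth κ)).2
  have hd3 : Continuous (deriv (deriv (prof κ))) :=
    (contDiff_infty_iff_deriv.mp hd2).2.continuous
  have hper : Function.Periodic (deriv (deriv (prof κ))) 1 := fun s =>
    deriv_per70 (fun s => deriv_per70 (prof_per κ) s) s
  apply intervalIntegral.integral_pos one_pos (hd3.pow 2).continuousOn (fun x _ => sq_nonneg _)
  refine ⟨Int.fract s, ⟨Int.fract_nonneg s, (Int.fract_lt_one s).le⟩, ?_⟩
  have : deriv (deriv (prof κ)) (Int.fract s) = deriv (deriv (prof κ)) s := by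
    have := hper.sub_int_mul_eq (x := s) ⌊s⌋
    rw [mul_one, Int.self_sub_floor] at this
    exact this
  change 0 < (deriv (deriv (prof κ)) (Int.fract s)) ^ 2
  rw [this]
  positivity

/-- the middle of `[0,1]` is off the support -/
theorem cos_lt_of_mid {κ s r : ℝ} (hr : 0 ≤ r) (hs : s ∈ Ioo r (1 - r))
    (hκ : κ ≤ 2 * (2 * r) ^ 2) : Real.cos (2 * Real.pi * s) < 1 - κ := by
  have hpi := Real.pi_pos
  obtain ⟨h1, h2⟩ := hs
  have hsin : Real.cos (2 * Real.pi * s) = 1 - 2 * Real.sin (Real.pi * s) ^ 2 := by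
    rw [show 2 * Real.pi * s = 2 * (Real.pi * s) by ring, Real.cos_two_mul]
    have := Real.sin_sq_add_cos_sq (Real.pi * s)
    linarith
  have hge : 2 * r < Real.sin (Real.pi * s) := by
    rcases le_total s (1 / 2) with hs2 | hs2
    · have := Real.mul_le_sin (x := Real.pi * s) (mul_nonneg hpi.le (by linarith))
        (by nlinarith)
      calc 2 * r < 2 * s := by linarith
        _ = 2 / Real.pi * (Real.pi * s) := by field_simp
        _ ≤ _ := this
    · have := Real.mul_le_sin (x := Real.pi * (1 - s)) (mul_nonneg hpi.le (by linarith))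
        (by nlinarith)
      have h3 : Real.sin (Real.pi * (1 - s)) = Real.sin (Real.pi * s) := by
        rw [show Real.pi * (1 - s) = Real.pi - Real.pi * s by ring, Real.sin_pi_sub]
      rw [h3] at this
      calc 2 * r < 2 * (1 - s) := by linarith
        _ = 2 / Real.pi * (Real.pi * (1 - s)) := by field_simp
        _ ≤ _ := this
  have : (2 * r) ^ 2 < Real.sin (Real.pi * s) ^ 2 :=
    pow_lt_pow_left₀ hge (by positivity) (by norm_num)
  rw [hsin]
  linarith

/-- smooth periodic profile with normalised, strongly concentrated second derivative -/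
theorem exists_profile (ε : ℝ) (hε : 0 < ε) : ∃ Φ : ℝ → ℝ, ContDiff ℝ ∞ Φ ∧
    (∀ s, Φ (s + 1) = Φ s) ∧ ∫ s in (0:ℝ)..1, (deriv (deriv Φ) s) ^ 2 = 1 ∧
    ∫ s in (0:ℝ)..1, |deriv (deriv Φ) s| ≤ ε := by
  set r := min (1 / 4) (ε ^ 2 / 2) with hr
  have hr0 : 0 < r := lt_min (by norm_num) (by positivity)
  have hr1 : r ≤ 1 / 4 := min_le_left _ _
  have hr2 : r ≤ ε ^ 2 / 2 := min_le_right _ _
  set κ := 2 * (2 * r) ^ 2 with hκ
  have hκ0 : 0 < κ := by positivity
  have hκ1 : κ ≤ 1 := by rw [hκ]; nlinarith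
  set c := ∫ s in (0:ℝ)..1, (deriv (deriv (prof κ)) s) ^ 2 with hc
  have hc0 : 0 < c := prof_int_pos hκ0 hκ1
  set w := (Real.sqrt c)⁻¹ with hw
  have hw0 : 0 < w := inv_pos.mpr (Real.sqrt_pos.mpr hc0)
  have hd1 : Differentiable ℝ (prof κ) := (prof_smooth κ).differentiable (by simp)
  have hd2 : ContDiff ℝ ∞ (deriv (prof κ)) := (contDiff_infty_iff_deriv.mp (prof_smooth κ)).2
  have hd3 : Continuous (deriv (deriv (prof κ))) :=
    (contDiff_infty_iff_deriv.mp hd2).2.continuous
  have hdd : ∀ s, deriv (deriv (fun s => w * prof κ s)) s = w * deriv (deriv (prof κ)) s := by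
    intro s
    have h1 : deriv (fun s => w * prof κ s) = fun s => w * deriv (prof κ) s := by
      funext x
      exact deriv_const_mul w (hd1 x)
    rw [h1]
    exact deriv_const_mul w (hd2.differentiable (by simp) s)
  have hone : ∫ s in (0:ℝ)..1, (w * deriv (deriv (prof κ)) s) ^ 2 = 1 := by
    have : ∀ s, (w * deriv (deriv (prof κ)) s) ^ 2 = w ^ 2 * (deriv (deriv (prof κ)) s) ^ 2 :=
      fun s => by ring
    simp only [this]
    rw [intervalIntegral.integral_const_mul, ← hc, hw, inv_pow, Real.sq_sqrt hc0.le]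
    exact inv_mul_cancel₀ hc0.ne'
  refine ⟨fun s => w * prof κ s, contDiff_const.mul (prof_smooth κ),
    fun s => by simp only [prof_per], ?_, ?_⟩
  · simp only [hdd]
    exact hone
  · simp only [hdd]
    set g : ℝ → ℝ := fun s => w * deriv (deriv (prof κ)) s with hg
    have hgc : Continuous g := continuous_const.mul hd3
    -- split `[0,1]`
    have hi : ∀ a b, IntervalIntegrable (fun s => |g s|) volume a b := fun a b =>
      hgc.abs.intervalIntegrable a b
    have hi2 : ∀ a b, IntervalIntegrable (fun s => g s ^ 2) volume a b := fun a b =>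
      (hgc.pow 2).intervalIntegrable a b
    have hpt : ∀ s, |g s| ≤ 1 / (2 * ε) + ε / 2 * g s ^ 2 := by
      intro s
      have h1 : 0 ≤ (1 - ε * |g s|) ^ 2 := sq_nonneg _
      have h2 : |g s| ^ 2 = g s ^ 2 := sq_abs _
      have h3 : |g s| * (2 * ε) ≤ 1 + ε ^ 2 * g s ^ 2 := by nlinarith
      calc |g s| = |g s| * (2 * ε) / (2 * ε) := by field_simp
        _ ≤ (1 + ε ^ 2 * g s ^ 2) / (2 * ε) := by
          apply div_le_div_of_nonneg_right h3 (by positivity)
        _ = 1 / (2 * ε) + ε / 2 * g s ^ 2 := by field_simp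
    have hzero : ∀ s ∈ Icc r (1 - r), g s = 0 := by
      have hcl : IsClosed {s | g s = 0} := isClosed_eq hgc continuous_const
      have hsub : Ioo r (1 - r) ⊆ {s | g s = 0} := fun s hs => by
        simp [hg, prof_dd_zero (cos_lt_of_mid hr0.le hs hκ.le)]
      have := hcl.closure_subset_iff.mpr hsub
      rw [closure_Ioo (by linarith)] at this
      exact fun s hs => this hs
    have hmid : ∫ s in r..(1 - r), |g s| = 0 := by
      rw [intervalIntegral.integral_congr (g := fun _ => (0 : ℝ))]
      · simp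
      · intro s hs
        rw [uIcc_of_le (by linarith)] at hs
        simp [hzero s hs]
    have hmid2 : ∫ s in r..(1 - r), g s ^ 2 = 0 := by
      rw [intervalIntegral.integral_congr (g := fun _ => (0 : ℝ))]
      · simp
      · intro s hs
        rw [uIcc_of_le (by linarith)] at hs
        simp [hzero s hs]
    have hb : ∀ a b, a ≤ b → ∫ s in a..b, |g s| ≤ (b - a) * (1 / (2 * ε)) +
        ε / 2 * ∫ s in a..b, g s ^ 2 := by
      intro a b hab
      calc ∫ s in a..b, |g s| ≤ ∫ s in a..b, (1 / (2 * ε) + ε / 2 * g s ^ 2) :=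
            intervalIntegral.integral_mono_on hab (hi a b)
              ((intervalIntegrable_const).add ((hi2 a b).const_mul _)) fun s _ => hpt s
        _ = _ := by
            rw [intervalIntegral.integral_add intervalIntegrable_const ((hi2 a b).const_mul _),
              intervalIntegral.integral_const, intervalIntegral.integral_const_mul, smul_eq_mul]
    have hsplit : ∀ f : ℝ → ℝ, (∀ a b, IntervalIntegrable f volume a b) →
        ∫ s in (0:ℝ)..1, f s = (∫ s in (0:ℝ)..r, f s) + (∫ s in r..(1 - r), f s) +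
          ∫ s in (1 - r)..1, f s := by
      intro f hf
      rw [intervalIntegral.integral_add_adjacent_intervals (hf _ _) (hf _ _),
        intervalIntegral.integral_add_adjacent_intervals (hf _ _) (hf _ _)]
    have h1 := hsplit _ hi
    have h2 := hsplit _ hi2
    have h3 : ∫ s in (0:ℝ)..1, g s ^ 2 = 1 := hone
    rw [hmid] at h1
    rw [hmid2, h3] at h2
    have h4 := hb 0 r hr0.le
    have h5 := hb (1 - r) 1 (by linarith)
    have h6 : r * (1 / (2 * ε)) * 2 ≤ ε / 2 := by
      have : r * (1 / (2 * ε)) * 2 = r / ε := by field_simp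
      rw [this, div_le_iff₀ hε]
      nlinarith
    change ∫ s in (0:ℝ)..1, |g s| ≤ ε
    rw [h1]
    have h7 : ε / 2 * (∫ s in (0:ℝ)..r, g s ^ 2) + ε / 2 * (∫ s in (1 - r)..1, g s ^ 2) =
        ε / 2 := by
      rw [← mul_add]
      rw [show (∫ s in (0:ℝ)..r, g s ^ 2) + (∫ s in (1 - r)..1, g s ^ 2) = 1 by linarith]
      ring
    nlinarith

end H37.LES
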