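import Mathlib

/-! Combinatorial core of the counterexample to Q2. -/

namespace Pool.Agent.H70

/-- states of vertices -/
abbrev Z := ℕ → Bool

/-- parent of a coordinate -/
def par (t : ℕ) : ℕ := (Nat.unpair (t - 1)).1

/-- distance in time of a coordinate from its parent, minus one -/
def dl (t : ℕ) : ℕ := (Nat.unpair (Nat.unpair (t - 1)).2).1

/-- cylinder code of a coordinate -/
def code (t : ℕ) : ℕ := (Nat.unpair (Nat.unpair (t - 1)).2).2

lemma par_lt {t : ℕ} (ht : t ≠ 0) : par t < t := by
  have h := Nat.unpair_left_le (t - 1)
  unfold par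
  omega

lemma code_le (t : ℕ) : code t ≤ t := by
  have h := Nat.unpair_right_le (t - 1)
  have h2 := Nat.unpair_right_le (Nat.unpair (t - 1)).2
  unfold code
  omega

/-- time of a coordinate -/
def tm (t : ℕ) : ℕ := if h : t = 0 then 0 else tm (par t) + 1 + dl t
termination_by t
decreasing_by exact par_lt h

lemma tm_zero : tm 0 = 0 := by
  rw [tm]; simp

lemma tm_pos {t : ℕ} (ht : t ≠ 0) : tm t = tm (par t) + 1 + dl t := by
  rw [tm]; simp [ht]

/-- basic clopen sets of pairs -/
def Cyl (c : ℕ) : Set (Z × Z) :=
  {γ | ∀ i < (Nat.unpair c).1, γ.1 i = (Nat.unpair c).2.testBit (2 * i) ∧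
    γ.2 i = (Nat.unpair c).2.testBit (2 * i + 1)}

lemma cyl_congr {c : ℕ} {γ γ' : Z × Z} (h1 : ∀ i < c, γ.1 i = γ'.1 i)
    (h2 : ∀ i < c, γ.2 i = γ'.2 i) : γ ∈ Cyl c ↔ γ' ∈ Cyl c := by
  have hc := Nat.unpair_left_le c
  unfold Cyl
  simp only [Set.mem_ofPred_eq]
  constructor
  · intro h i hi
    rw [← h1 i (by omega), ← h2 i (by omega)]
    exact h i hi
  · intro h i hi
    rw [h1 i (by omega), h2 i (by omega)]
    exact h i hi

lemma cyl_nonempty (c : ℕ) : (Cyl c).Nonempty :=
  ⟨(fun i => (Nat.unpair c).2.testBit (2 * i), fun i => (Nat.unpair c).2.testBit (2 * i + 1)),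
    fun _ _ => ⟨rfl, rfl⟩⟩

open Classical in
/-- the transition maps -/
noncomputable def g (n : ℕ) (γ : Z × Z) : Z := fun t =>
  if t = 0 then γ.2 0
  else if n < tm (par t) then γ.2 t
  else if n = tm (par t) then (if γ ∈ Cyl (code (par t)) then γ.2 t else γ.1 (par t))
  else if n < tm t then γ.1 t
  else γ.2 t

/-- dependence on a coordinate -/
def Dep (a : Z → Bool) (t : ℕ) : Prop := ∃ x y : Z, (∀ u, u ≠ t → x u = y u) ∧ a x ≠ a y

lemma exists_dep_lt (a : Z → Bool) (x y : Z) (k : ℕ) (h : a (fun i => if i < k then y i else x i) ≠ a x) :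
    ∃ t < k, Dep a t := by
  induction k with
  | zero => simp at h
  | succ k ih =>
    by_cases hk : a (fun i => if i < k then y i else x i) = a x
    · refine ⟨k, Nat.lt_succ_self k, _, _, ?_, fun h' => h (h'.symm.trans hk)⟩
      intro u hu
      by_cases h1 : u < k
      · simp [h1, Nat.lt_succ_of_lt h1]
      · have h2 : ¬ u < k + 1 := by omega
        simp [h1, h2]
    · obtain ⟨t, ht, hd⟩ := ih hk
      exact ⟨t, Nat.lt_succ_of_lt ht, hd⟩

lemma exists_dep {a : Z → Bool} (ha : Continuous a) {x y : Z} (h : a x ≠ a y) : ∃ t, Dep a t := by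
  have hlim : Filter.Tendsto (fun (k : ℕ) (i : ℕ) => if i < k then y i else x i) Filter.atTop
      (nhds y) := by
    rw [tendsto_pi_nhds]
    intro i
    refine tendsto_const_nhds.congr' ?_
    filter_upwards [Filter.eventually_gt_atTop i] with k hk
    simp [hk]
  have h2 := (ha.tendsto y).comp hlim
  have h3 : ∀ᶠ k : ℕ in Filter.atTop, a (fun i => if i < k then y i else x i) = a y := by
    have := h2.eventually (IsOpen.mem_nhds (isOpen_discrete {a y}) rfl)
    filter_upwards [this] with k hk using hk
  obtain ⟨k, hk⟩ := h3.exists
  obtain ⟨t, _, ht⟩ := exists_dep_lt a x y k (by rw [hk]; exact h.symm)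
  exact ⟨t, ht⟩

/-- the core theorem -/
theorem core (m : ℕ) (a : ℕ → Z → Bool) (hc : ∀ n, m ≤ n → Continuous (a n))
    (hinv : ∀ n, m ≤ n → ∀ γ : Z × Z, a n γ.1 = a (n + 1) (g n γ)) (n : ℕ) (hn : m ≤ n) (x y : Z) :
    a n x = a n y := by
  by_contra hne
  have hex : ∃ t, ∃ n, m ≤ n ∧ Dep (a n) t := by
    obtain ⟨t, ht⟩ := exists_dep (hc n hn) hne
    exact ⟨t, n, hn, ht⟩
  classical
  set t := Nat.find hex with htdef
  obtain ⟨n0, hn0, hd0⟩ := Nat.find_spec hex
  have hmin : ∀ k < t, ∀ n, m ≤ n → ¬ Dep (a n) k := fun k hk n hn hd =>
    Nat.find_min hex hk ⟨n, hn, hd⟩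
  -- the step
  have step : ∀ n, m ≤ n → Dep (a n) t → (n < tm t ∧ Dep (a (n + 1)) t) := by
    intro n hn hd
    obtain ⟨x, y, hxy, haxy⟩ := hd
    by_cases hnt : n = tm t
    · exfalso
      obtain ⟨⟨z0, w0⟩, hz0⟩ := cyl_nonempty (code t)
      have hx1 : a n (fun i => if i < t then z0 i else x i) = a n x := by
        by_contra h
        obtain ⟨k, hk, hd⟩ := exists_dep_lt (a n) x z0 t h
        exact hmin k hk n hn hd
      have hy1 : a n (fun i => if i < t then z0 i else y i) = a n y := by
        by_contra h
        obtain ⟨k, hk, hd⟩ := exists_dep_lt (a n) y z0 t h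
        exact hmin k hk n hn hd
      set x1 : Z := fun i => if i < t then z0 i else x i with hx1d
      set y1 : Z := fun i => if i < t then z0 i else y i with hy1d
      set w : Z := fun u => if u < t then w0 u else x1 (par u) with hwd
      have hx1y1 : ∀ u, u ≠ t → x1 u = y1 u := by
        intro u hu
        simp only [hx1d, hy1d]
        by_cases h : u < t
        · simp [h]
        · simp [h, hxy u hu]
      have hCx : (x1, w) ∈ Cyl (code t) := by
        refine (cyl_congr (γ := (z0, w0)) (fun i hi => ?_) (fun i hi => ?_)).1 hz0
        · have : i < t := lt_of_lt_of_le hi (code_le t)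
          simp [hx1d, this]
        · have : i < t := lt_of_lt_of_le hi (code_le t)
          simp [hwd, this]
      have hCy : (y1, w) ∈ Cyl (code t) := by
        refine (cyl_congr (γ := (z0, w0)) (fun i hi => ?_) (fun i hi => ?_)).1 hz0
        · have : i < t := lt_of_lt_of_le hi (code_le t)
          simp [hy1d, this]
        · have : i < t := lt_of_lt_of_le hi (code_le t)
          simp [hwd, this]
      have hg : g n (x1, w) = g n (y1, w) := by
        funext u
        unfold g
        by_cases hu0 : u = 0
        · simp [hu0]
        simp only [hu0, if_false]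
        by_cases h1 : n < tm (par u)
        · simp [h1]
        simp only [h1, if_false]
        by_cases h2 : n = tm (par u)
        · simp only [h2, if_true]
          by_cases hpu : par u = t
          · rw [hpu, if_pos hCx, if_pos hCy]
          · rw [hx1y1 _ hpu]
            by_cases hut : u < t
            · have hiff : ((x1, w) ∈ Cyl (code (par u))) ↔ ((y1, w) ∈ Cyl (code (par u))) := by
                refine cyl_congr (fun i hi => ?_) (fun i hi => rfl)
                refine hx1y1 i ?_
                have h3 := code_le (par u)
                have h4 := par_lt hu0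
                omega
              by_cases h5 : (x1, w) ∈ Cyl (code (par u))
              · rw [if_pos h5, if_pos (hiff.1 h5)]
              · rw [if_neg h5, if_neg (fun h => h5 (hiff.2 h))]
            · have hwu : w u = y1 (par u) := by
                rw [← hx1y1 _ hpu]
                simp [hwd, hut]
              split_ifs <;> simp [hwu]
        · simp only [h2, if_false]
          by_cases h3 : n < tm u
          · simp only [h3, if_true]
            refine hx1y1 u ?_
            rintro rfl
            omega
          · simp [h3]
      have e1 := hinv n hn (x1, w)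
      have e2 := hinv n hn (y1, w)
      simp only at e1 e2
      apply haxy
      rw [← hx1, ← hy1, e1, e2, hg]
    · -- not the end
      set w : Z := fun u => x (par u) with hwd
      have hgu : ∀ u, u ≠ t → g n (x, w) u = g n (y, w) u := by
        intro u hu
        unfold g
        by_cases hu0 : u = 0
        · simp [hu0]
        simp only [hu0, if_false]
        by_cases h1 : n < tm (par u)
        · simp [h1]
        simp only [h1, if_false]
        by_cases h2 : n = tm (par u)
        · simp only [h2, if_true]
          have hpu : par u ≠ t := by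
            intro h
            rw [h] at h2
            exact hnt h2
          rw [← hxy _ hpu]
          have hwu : w u = x (par u) := rfl
          split_ifs <;> simp [hwu]
        · simp only [h2, if_false]
          by_cases h3 : n < tm u
          · simp only [h3, if_true]
            exact hxy u hu
          · simp [h3]
      have hne2 : a (n + 1) (g n (x, w)) ≠ a (n + 1) (g n (y, w)) := by
        rw [← hinv n hn (x, w), ← hinv n hn (y, w)]
        exact haxy
      refine ⟨?_, ⟨g n (x, w), g n (y, w), hgu, hne2⟩⟩
      by_contra hge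
      apply hne2
      congr 1
      funext u
      by_cases hu : u = t
      · rw [hu]
        unfold g
        by_cases hu0 : t = 0
        · rw [if_pos hu0, if_pos hu0]
        rw [if_neg hu0, if_neg hu0]
        by_cases h1 : n < tm (par t)
        · simp [h1]
        simp only [h1, if_false]
        by_cases h2 : n = tm (par t)
        · simp only [h2, if_true]
          have hpu : par t ≠ t := (par_lt hu0).ne
          rw [← hxy _ hpu]
          have hwu : w t = x (par t) := rfl
          split_ifs <;> simp [hwu]
        · simp only [h2, if_false]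
          simp [hge]
      · exact hgu u hu
  have hall : ∀ k, Dep (a (n0 + k)) t := by
    intro k
    induction k with
    | zero => exact hd0
    | succ k ih => exact (step (n0 + k) (by omega) ih).2
  have := (step (n0 + tm t) (by omega) (hall _)).1
  omega

end Pool.Agent.H70
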