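import Mathlib

/-! General facts on the Stone-Cech remainder of a punctured compact metric space
(the lemmas near_point and cluster_point are due to helper31). -/

open Set Filter Topology Metric

namespace Pool.Agent.H70

universe u

/-- A (sub)continuum: a nonempty compact connected set. -/
def IsContinuum {Z : Type u} [TopologicalSpace Z] (s : Set Z) : Prop :=
  IsCompact s ∧ IsConnected s

/-- An indecomposable continuum: not the union of two proper subcontinua. -/
def IsIndecomposable {Z : Type u} [TopologicalSpace Z] (s : Set Z) : Prop :=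
  IsContinuum s ∧ ∀ A B : Set Z, IsContinuum A → IsContinuum B → A ∪ B = s → A = s ∨ B = s

/-- The Stone-Cech remainder. -/
def remainder (Y : Type u) [TopologicalSpace Y] : Set (StoneCech Y) :=
  (range (stoneCechUnit : Y → StoneCech Y))ᶜ

lemma ext_fun {Y : Type u} [TopologicalSpace Y] [NormalSpace Y] {s t : Set Y} (hs : IsClosed s)
    (ht : IsClosed t) (hst : Disjoint s t) :
    ∃ G : StoneCech Y → ℝ, Continuous G ∧ (∀ y ∈ s, G (stoneCechUnit y) = 0) ∧
      (∀ y ∈ t, G (stoneCechUnit y) = 1) := by
  obtain ⟨f, hf0, hf1, hf⟩ := exists_continuous_zero_one_of_isClosed hs ht hst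
  let g : Y → Icc (0 : ℝ) 1 := fun y => ⟨f y, hf y⟩
  have hg : Continuous g := f.continuous.subtype_mk _
  refine ⟨fun z => ((stoneCechExtend hg z : Icc (0 : ℝ) 1) : ℝ),
    continuous_subtype_val.comp (continuous_stoneCechExtend hg), ?_, ?_⟩
  · intro y hy
    have : stoneCechExtend hg (stoneCechUnit y) = g y := by
      exact congrFun (stoneCechExtend_extends hg) y
    show ((stoneCechExtend hg (stoneCechUnit y) : Icc (0 : ℝ) 1) : ℝ) = 0
    rw [this]
    exact hf0 hy
  · intro y hy
    have : stoneCechExtend hg (stoneCechUnit y) = g y := by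
      exact congrFun (stoneCechExtend_extends hg) y
    show ((stoneCechExtend hg (stoneCechUnit y) : Icc (0 : ℝ) 1) : ℝ) = 1
    rw [this]
    exact hf1 hy

variable {X : Type u} [MetricSpace X] [CompactSpace X]

lemma near_point {p : X} {z : StoneCech {x : X // x ≠ p}} (hz : z ∈ remainder {x : X // x ≠ p})
    {O : Set (StoneCech {x : X // x ≠ p})} (hO : IsOpen O) (hzO : z ∈ O) {ε : ℝ} (hε : 0 < ε) :
    ∃ y : {x : X // x ≠ p}, dist y.1 p < ε ∧ stoneCechUnit y ∈ O := by
  let K : Set {x : X // x ≠ p} := {y | ε ≤ dist y.1 p}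
  have hK : IsCompact K := by
    rw [Topology.IsEmbedding.subtypeVal.isCompact_iff]
    have : Subtype.val '' K = {x : X | ε ≤ dist x p} := by
      ext x
      constructor
      · rintro ⟨y, hy, rfl⟩
        exact hy
      · intro hx
        refine ⟨⟨x, ?_⟩, hx, rfl⟩
        rintro rfl
        have : ε ≤ dist x x := hx
        rw [dist_self] at this
        linarith
    rw [this]
    exact (isClosed_le continuous_const (continuous_id.dist continuous_const)).isCompact
  have hcl : IsClosed (stoneCechUnit '' K) := (hK.image continuous_stoneCechUnit).isClosed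
  have hzK : z ∉ stoneCechUnit '' K := by
    rintro ⟨y, _, rfl⟩
    exact hz ⟨y, rfl⟩
  obtain ⟨y, hy⟩ := (denseRange_stoneCechUnit (α := {x : X // x ≠ p})).exists_mem_open
    (hO.inter hcl.isOpen_compl) ⟨z, hzO, hzK⟩
  refine ⟨y, ?_, hy.1⟩
  by_contra h
  exact hy.2 ⟨y, not_lt.1 h, rfl⟩

lemma cluster_point {p : X} {y : ℕ → {x : X // x ≠ p}}
    (hy : Tendsto (fun n => (y n).1) atTop (𝓝 p)) :
    ∃ z ∈ remainder {x : X // x ≠ p}, MapClusterPt z atTop (fun n => stoneCechUnit (y n)) := by
  obtain ⟨z, hz⟩ := exists_clusterPt_of_compactSpace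
    (Filter.map (fun n => (stoneCechUnit (y n) : StoneCech {x : X // x ≠ p})) atTop)
  refine ⟨z, ?_, hz⟩
  rintro ⟨a, rfl⟩
  have hc : Continuous (Subtype.val : {x : X // x ≠ p} → X) := continuous_subtype_val
  have h1 : MapClusterPt (stoneCechExtend hc (stoneCechUnit a)) atTop
      (stoneCechExtend hc ∘ (fun n => (stoneCechUnit (y n) : StoneCech {x : X // x ≠ p}))) :=
    MapClusterPt.continuousAt_comp (continuous_stoneCechExtend hc).continuousAt hz
  have h2 : stoneCechExtend hc (stoneCechUnit a) = a.1 := congrFun (stoneCechExtend_extends hc) a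
  have h3 : (stoneCechExtend hc ∘ (fun n => (stoneCechUnit (y n) : StoneCech {x : X // x ≠ p})))
      = fun n => (y n).1 := by
    funext n
    exact congrFun (stoneCechExtend_extends hc) (y n)
  rw [h2, h3] at h1
  have h4 : ClusterPt a.1 (𝓝 p) := ClusterPt.mono h1 hy
  have h5 : a.1 = p := eq_of_nhds_neBot (by simpa [ClusterPt] using h4)
  exact a.2 h5

lemma cluster_closed {Z : Type u} [TopologicalSpace Z] {z : Z} {u : ℕ → Z}
    (hz : MapClusterPt z atTop u) {C : Set Z} (hC : IsClosed C) (hu : ∀ n, u n ∈ C) : z ∈ C := by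
  by_contra h
  have h1 : ∃ᶠ n in atTop, u n ∈ Cᶜ := hz.frequently (hC.isOpen_compl.mem_nhds h)
  obtain ⟨n, hn⟩ := h1.exists
  exact hn (hu n)

/-- the remainder is closed -/
lemma remainder_isClosed (p : X) : IsClosed (remainder {x : X // x ≠ p}) := by
  have hc : Continuous (Subtype.val : {x : X // x ≠ p} → X) := continuous_subtype_val
  have hE := continuous_stoneCechExtend hc
  have hun : ∀ y : {x : X // x ≠ p}, stoneCechExtend hc (stoneCechUnit y) = y.1 := fun y =>
    congrFun (stoneCechExtend_extends hc) y
  have : remainder {x : X // x ≠ p} = stoneCechExtend hc ⁻¹' {p} := by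
    ext z
    constructor
    · intro hz
      by_contra hne
      have hne' : stoneCechExtend hc z ≠ p := hne
      have hd : 0 < dist (stoneCechExtend hc z) p := dist_pos.2 hne'
      obtain ⟨y, hy1, hy2⟩ := near_point hz (isOpen_ball.preimage hE)
        (show z ∈ stoneCechExtend hc ⁻¹' ball (stoneCechExtend hc z)
          (dist (stoneCechExtend hc z) p / 2) from mem_ball_self (half_pos hd)) (half_pos hd)
      rw [mem_preimage, hun, mem_ball] at hy2
      have := dist_triangle (stoneCechExtend hc z) y.1 p
      rw [dist_comm (stoneCechExtend hc z) y.1] at this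
      linarith
    · rintro hz ⟨y, rfl⟩
      rw [mem_preimage, hun] at hz
      exact y.2 hz
  rw [this]
  exact isClosed_singleton.preimage hE

end Pool.Agent.H70
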