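import Mathlib
import Pool.Agent.H70.Core
import Pool.Agent.H70.Remainder

/-! The telescope, abstractly. -/

open Set Filter Topology Metric unitInterval

set_option linter.unusedSectionVars false

namespace Pool.Agent.H70

/-- pairs of states -/
abbrev Γ := Z × Z

/-- A telescope structure on a space with a point `p`. -/
structure Tel (X : Type) [TopologicalSpace X] (p : X) where
  e : ℕ → Γ × I → X
  cont : ∀ n, Continuous (e n)
  f : X → ℝ
  hf : Continuous f
  fp : f p = 0
  fe : ∀ n q, f (e n q) = 1 / ((n : ℝ) + (q.2 : ℝ) + 1)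
  surj : ∀ x, x ≠ p → ∃ n q, e n q = x
  glue : ∀ n γ w, e n (γ, 1) = e (n + 1) ((g n γ, w), 0)
  inj : ∀ n γ γ' (r : I), 0 < r → r < 1 → e n (γ, r) = e n (γ', r) → γ = γ'
  vert : ∀ n (γ γ' : Γ), γ.1 = γ'.1 → e n (γ, 0) = e n (γ', 0)
  inj0 : ∀ n (γ γ' : Γ), e n (γ, 0) = e n (γ', 0) → γ.1 = γ'.1

lemma cyl_isClopen (c : ℕ) : IsClopen (Cyl c) := by
  have : Cyl c = ⋂ i ∈ Finset.range (Nat.unpair c).1,
      ({γ : Γ | γ.1 i = (Nat.unpair c).2.testBit (2 * i)} ∩
        {γ : Γ | γ.2 i = (Nat.unpair c).2.testBit (2 * i + 1)}) := by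
    ext γ
    simp only [Cyl, mem_ofPred_eq, mem_iInter, Finset.mem_range, mem_inter_iff]
  rw [this]
  apply isClopen_biInter_finset
  intro i _
  apply IsClopen.inter
  · have h1 : Continuous fun γ : Γ => γ.1 i := (continuous_apply i).comp continuous_fst
    exact (isClopen_discrete {(Nat.unpair c).2.testBit (2 * i)}).preimage h1
  · have h1 : Continuous fun γ : Γ => γ.2 i := (continuous_apply i).comp continuous_snd
    exact (isClopen_discrete {(Nat.unpair c).2.testBit (2 * i + 1)}).preimage h1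

open Classical in
lemma g_cont (n : ℕ) : Continuous (g n) := by
  refine continuous_pi fun t => ?_
  have h1 : ∀ i, Continuous fun γ : Γ => γ.1 i := fun i => (continuous_apply i).comp continuous_fst
  have h2 : ∀ i, Continuous fun γ : Γ => γ.2 i := fun i => (continuous_apply i).comp continuous_snd
  unfold g
  by_cases ht : t = 0
  · simp only [ht, if_true]; exact h2 0
  simp only [ht, if_false]
  by_cases h3 : n < tm (par t)
  · simp only [h3, if_true]; exact h2 t
  simp only [h3, if_false]
  by_cases h4 : n = tm (par t)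
  · simp only [h4, if_true]
    refine continuous_if ?_ (h2 t).continuousOn (h1 (par t)).continuousOn
    intro a ha
    have : frontier {a : Γ | a ∈ Cyl (code (par t))} = ∅ := (cyl_isClopen (code (par t))).frontier_eq
    rw [this] at ha
    exact absurd ha (notMem_empty a)
  simp only [h4, if_false]
  by_cases h5 : n < tm t
  · simp only [h5, if_true]; exact h1 t
  · simp only [h5, if_false]; exact h2 t

namespace Tel

variable {X : Type} [MetricSpace X] [CompactSpace X] {p : X} (T : Tel X p)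

include T

lemma fe_pos (n : ℕ) (q : Γ × I) : 0 < T.f (T.e n q) := by
  rw [T.fe]
  have := q.2.2.1
  positivity

lemma ne (n : ℕ) (q : Γ × I) : T.e n q ≠ p := by
  intro h
  have := T.fe_pos n q
  rw [h, T.fp] at this
  exact lt_irrefl _ this

lemma f_pos {x : X} (hx : x ≠ p) : 0 < T.f x := by
  obtain ⟨n, q, rfl⟩ := T.surj x hx
  exact T.fe_pos n q

/-- edges as maps into the punctured space -/
def e' (n : ℕ) (q : Γ × I) : {x : X // x ≠ p} := ⟨T.e n q, T.ne n q⟩

lemma cont' (n : ℕ) : Continuous (T.e' n) := (T.cont n).subtype_mk _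

lemma level {n n' : ℕ} {q q' : Γ × I} (h : T.e n q = T.e n' q') :
    (n : ℝ) + q.2 = n' + q'.2 := by
  have h1 : T.f (T.e n q) = T.f (T.e n' q') := by rw [h]
  rw [T.fe, T.fe] at h1
  have := q.2.2.1
  have := q'.2.2.1
  have h2 : (0 : ℝ) < n + q.2 + 1 := by positivity
  have h3 : (0 : ℝ) < n' + q'.2 + 1 := by positivity
  rw [div_eq_div_iff h2.ne' h3.ne'] at h1
  linarith

/-- a compatible family descends -/
lemma compat {S : ℕ → Set (Γ × I)} {B : ℕ → Set Z}
    (h0 : ∀ n γ, (γ, (0 : I)) ∈ S n ↔ γ.1 ∈ B n) (h1 : ∀ n γ, (γ, (1 : I)) ∈ S n ↔ g n γ ∈ B (n + 1))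
    {n n' : ℕ} {q q' : Γ × I} (h : T.e n q = T.e n' q') : q ∈ S n ↔ q' ∈ S n' := by
  wlog hle : n ≤ n' generalizing n n' q q' with H
  · exact (H h.symm (le_of_lt (not_le.1 hle))).symm
  have hl := T.level h
  obtain ⟨γ, r⟩ := q
  obtain ⟨γ', r'⟩ := q'
  simp only at hl
  have hs0 := r.2.1
  have hs1 := r.2.2
  have hs0' := r'.2.1
  have hs1' := r'.2.2
  rcases eq_or_lt_of_le hle with rfl | hlt
  · have hr : r = r' := Subtype.ext (by linarith)
    subst hr
    by_cases h00 : r = 0
    · subst h00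
      rw [h0, h0, T.inj0 n γ γ' h]
    by_cases h11 : r = 1
    · subst h11
      rw [T.glue n γ γ.2, T.glue n γ' γ.2] at h
      have h2 : g n γ = g n γ' := T.inj0 (n + 1) _ _ h
      rw [h1, h1, h2]
    · rw [T.inj n γ γ' r (lt_of_le_of_ne r.2.1 (Ne.symm h00)) (lt_of_le_of_ne r.2.2 h11) h]
  · have hn : (n : ℝ) + 1 ≤ n' := by exact_mod_cast hlt
    have e1 : (r : ℝ) = 1 := by linarith
    have e2 : (r' : ℝ) = 0 := by linarith
    have e3 : n' = n + 1 := by
      have : (n' : ℝ) = (n : ℝ) + 1 := by linarith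
      exact_mod_cast this
    have hr : r = 1 := Subtype.ext e1
    have hr' : r' = 0 := Subtype.ext e2
    subst hr hr' e3
    rw [T.glue n γ γ.2] at h
    have h2 : g n γ = γ'.1 := T.inj0 (n + 1) _ _ h
    rw [h1, h0, ← h2]

/-- closed sets containing `p` are recognised on the edges -/
lemma isClosed_of {S : Set X} (hp : p ∈ S) (hS : ∀ n, IsClosed (T.e n ⁻¹' S)) : IsClosed S := by
  rw [← isOpen_compl_iff, isOpen_iff_mem_nhds]
  intro x hx
  have hxp : x ≠ p := fun h => hx (h ▸ hp)
  have hfx := T.f_pos hxp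
  obtain ⟨N, hN⟩ := exists_nat_one_div_lt hfx
  let C : Set X := ⋃ n ∈ Finset.range N, T.e n '' (T.e n ⁻¹' S)
  have hC : IsClosed C := by
    apply isClosed_biUnion_finset
    intro n _
    exact ((hS n).isCompact.image (T.cont n)).isClosed
  have hxC : x ∉ C := by
    intro h
    simp only [C, mem_iUnion] at h
    obtain ⟨n, _, q, hq, rfl⟩ := h
    exact hx hq
  have hV : {y | 1 / ((N : ℝ) + 1) < T.f y} ∈ 𝓝 x :=
    (isOpen_lt continuous_const T.hf).mem_nhds hN
  filter_upwards [hV, hC.isOpen_compl.mem_nhds hxC] with y hy1 hy2 hyS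
  have hyp : y ≠ p := by
    rintro rfl
    have h1 : 1 / ((N : ℝ) + 1) < T.f y := hy1
    rw [T.fp] at h1
    have : (0 : ℝ) < 1 / ((N : ℝ) + 1) := by positivity
    linarith
  obtain ⟨n, q, rfl⟩ := T.surj y hyp
  apply hy2
  simp only [C, mem_iUnion, Finset.mem_range]
  refine ⟨n, ?_, q, hyS, rfl⟩
  have h1 : 1 / ((N : ℝ) + 1) < T.f (T.e n q) := hy1
  rw [T.fe] at h1
  have hq0 := q.2.2.1
  have h2 : (n : ℝ) + q.2 + 1 < N + 1 := by
    have h3 : (0 : ℝ) < n + q.2 + 1 := by positivity
    have h4 : (0 : ℝ) < N + 1 := by positivity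
    exact (one_div_lt_one_div h4 h3).1 h1
  have : (n : ℝ) < N := by linarith
  exact_mod_cast this

lemma isClosed_of' {S : Set {x : X // x ≠ p}} (hS : ∀ n, IsClosed (T.e' n ⁻¹' S)) : IsClosed S := by
  have h1 : IsClosed (insert p (Subtype.val '' S)) := by
    apply T.isClosed_of (mem_insert _ _)
    intro n
    have : T.e n ⁻¹' (insert p (Subtype.val '' S)) = T.e' n ⁻¹' S := by
      ext q
      constructor
      · rintro (h | ⟨y, hy, h⟩)
        · exact absurd h (T.ne n q)
        · have : y = T.e' n q := Subtype.ext h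
          rw [mem_preimage, ← this]
          exact hy
      · intro h
        exact Or.inr ⟨_, h, rfl⟩
    rw [this]
    exact hS n
  have h2 : S = Subtype.val ⁻¹' (insert p (Subtype.val '' S)) := by
    ext y
    constructor
    · intro hy
      exact Or.inr ⟨y, hy, rfl⟩
    · rintro (h | ⟨y', hy', h⟩)
      · exact absurd h y.2
      · rwa [← Subtype.ext h]
  rw [h2]
  exact h1.preimage continuous_subtype_val

/-- tails converge to `p` -/
lemma near_p {U : Set X} (hU : IsOpen U) (hp : p ∈ U) : ∃ N, ∀ n, N ≤ n → ∀ q, T.e n q ∈ U := by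
  rcases (Uᶜ).eq_empty_or_nonempty with h | h
  · refine ⟨0, fun n _ q => ?_⟩
    have : U = univ := compl_empty_iff.1 h
    rw [this]; trivial
  · obtain ⟨x, hx, hmin⟩ := hU.isClosed_compl.isCompact.exists_isMinOn h T.hf.continuousOn
    have hxp : x ≠ p := fun h => hx (h ▸ hp)
    obtain ⟨N, hN⟩ := exists_nat_one_div_lt (T.f_pos hxp)
    refine ⟨N, fun n hn q => ?_⟩
    by_contra hq
    have h1 : T.f x ≤ T.f (T.e n q) := hmin hq
    rw [T.fe] at h1
    have h2 : 1 / ((n : ℝ) + q.2 + 1) ≤ 1 / ((N : ℝ) + 1) := by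
      apply one_div_le_one_div_of_le (by positivity)
      have := q.2.2.1
      have : (N : ℝ) ≤ n := by exact_mod_cast hn
      linarith
    linarith

/-- points near `p` are in the tails -/
lemma in_tail (N : ℕ) : ∃ ε > 0, ∀ y, y ≠ p → dist y p < ε → ∃ n, N ≤ n ∧ ∃ q, T.e n q = y := by
  have h1 : ∀ᶠ y in 𝓝 p, T.f y < 1 / ((N : ℝ) + 2) := by
    apply T.hf.continuousAt.eventually (gt_mem_nhds _)
    rw [T.fp]
    positivity
  obtain ⟨ε, hε, h⟩ := Metric.eventually_nhds_iff.1 h1
  refine ⟨ε, hε, fun y hy hd => ?_⟩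
  obtain ⟨n, q, rfl⟩ := T.surj y hy
  refine ⟨n, ?_, q, rfl⟩
  have h2 := h hd
  rw [T.fe] at h2
  have hq0 := q.2.2.1
  have hq1 := q.2.2.2
  have h3 : (0 : ℝ) < n + q.2 + 1 := by positivity
  have h4 : (0 : ℝ) < N + 2 := by positivity
  have h5 := (one_div_lt_one_div h3 h4).1 h2
  have : (N : ℝ) < n + 1 := by linarith
  have : N < n + 1 := by exact_mod_cast this
  omega

lemma edge_preconnected (n : ℕ) (γ : Γ) : IsPreconnected (range fun r : I => T.e n (γ, r)) := by
  have : Continuous fun r : I => T.e n (γ, r) := (T.cont n).comp (by fun_prop)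
  exact isPreconnected_range this

/-- the space is connected -/
lemma connected : ConnectedSpace X := by
  have : Nonempty X := ⟨p⟩
  have hpre : PreconnectedSpace X := by
    rw [preconnectedSpace_iff_clopen]
    have key : ∀ U : Set X, IsClopen U → p ∈ U → U = univ := by
      intro U hU hp
      obtain ⟨N, hN⟩ := T.near_p hU.isOpen hp
      have hall : ∀ k n, N ≤ n + k → ∀ q, T.e n q ∈ U := by
        intro k
        induction k with
        | zero => intro n hn; exact hN n (by omega)
        | succ k ih =>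
          intro n hn q
          have h1 : (range (fun r : I => T.e n (q.1, r)) ∩ U).Nonempty :=
            ⟨T.e n (q.1, 1), ⟨1, rfl⟩, by
              rw [T.glue n q.1 q.1.1]
              exact ih (n + 1) (by omega) _⟩
          exact (T.edge_preconnected n q.1).subset_isClopen hU h1 ⟨q.2, rfl⟩
      rw [eq_univ_iff_forall]
      intro x
      by_cases hx : x = p
      · rwa [hx]
      · obtain ⟨n, q, rfl⟩ := T.surj x hx
        exact hall N n (by omega) q
    intro U hU
    by_cases hp : p ∈ U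
    · exact Or.inr (key U hU hp)
    · left
      have := key Uᶜ hU.compl hp
      exact compl_univ_iff.1 this
  exact ⟨this⟩

end Tel

end Pool.Agent.H70
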