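import Mathlib
import Pool.Agent.H70.Tel

/-! Connectedness of the remainder of the telescope. -/

open Set Filter Topology Metric

set_option linter.unusedSectionVars false

namespace Pool.Agent.H70

namespace Tel

variable {X : Type} [MetricSpace X] [CompactSpace X] {p : X} (T : Tel X p)

include T

/-- sequences in the tails converge to `p` -/
lemma tendsto_tail {n : ℕ → ℕ} (hn : Tendsto n atTop atTop) (q : ℕ → Γ × unitInterval) :
    Tendsto (fun k => T.e (n k) (q k)) atTop (𝓝 p) := by
  rw [_root_.tendsto_nhds]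
  intro U hU hp
  obtain ⟨N, hN⟩ := T.near_p hU hp
  filter_upwards [hn.eventually_ge_atTop N] with k hk
  exact hN _ hk _

lemma remainder_nonempty : (remainder {x : X // x ≠ p}).Nonempty := by
  obtain ⟨z, hz, _⟩ := cluster_point (p := p) (y := fun k => T.e' k ((fun _ => false, fun _ => false), 0))
    (T.tendsto_tail tendsto_id _)
  exact ⟨z, hz⟩

/-- a continuous function avoiding the middle interval on the tails is on one side -/
lemma one_side (F : {x : X // x ≠ p} → ℝ) (hF : Continuous F) (N : ℕ)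
    (hno : ∀ n, N ≤ n → ∀ q, ¬ (1 / 3 ≤ F (T.e' n q) ∧ F (T.e' n q) ≤ 2 / 3)) :
    (∀ n, N ≤ n → ∀ q, F (T.e' n q) < 1 / 3) ∨ (∀ n, N ≤ n → ∀ q, 2 / 3 < F (T.e' n q)) := by
  classical
  have hdich : ∀ n, N ≤ n → ∀ q, ¬ F (T.e' n q) < 1 / 3 → 2 / 3 < F (T.e' n q) := by
    intro n hn q h
    by_contra h'
    exact hno n hn q ⟨not_lt.1 h, not_lt.1 h'⟩
  have hside : ∀ n, N ≤ n → ∀ (γ : Γ) (r r' : unitInterval),
      F (T.e' n (γ, r)) < 1 / 3 → F (T.e' n (γ, r')) < 1 / 3 := by
    intro n hn γ r r' hlt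
    by_contra hge
    have hc : Continuous fun r : unitInterval => F (T.e' n (γ, r)) :=
      hF.comp ((T.cont' n).comp (by fun_prop))
    have hge' := hdich n hn _ hge
    obtain ⟨w, hw⟩ := mem_range_of_exists_le_of_exists_ge hc
      (c := 1 / 2) ⟨r, by linarith⟩ ⟨r', by linarith⟩
    refine hno n hn (γ, w) ⟨?_, ?_⟩
    · have : F (T.e' n (γ, w)) = 1 / 2 := hw
      rw [this]; norm_num
    · have : F (T.e' n (γ, w)) = 1 / 2 := hw
      rw [this]; norm_num
  let w0 : Z := fun _ => false
  let a : ℕ → Z → Bool := fun n z => decide (F (T.e' n ((z, w0), 0)) < 1 / 3)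
  have ha : ∀ n, N ≤ n → Continuous (a n) := by
    intro n hn
    have hc : Continuous fun z : Z => F (T.e' n ((z, w0), 0)) :=
      hF.comp ((T.cont' n).comp (by fun_prop))
    rw [continuous_bool_rng true]
    have h1 : a n ⁻¹' {true} = {z : Z | F (T.e' n ((z, w0), 0)) < 1 / 3} := by
      ext z
      simp [a]
    rw [h1]
    constructor
    · have : {z : Z | F (T.e' n ((z, w0), 0)) < 1 / 3} = {z : Z | F (T.e' n ((z, w0), 0)) ≤ 1 / 3} := by
        ext z
        simp only [mem_ofPred_eq]
        refine ⟨le_of_lt, fun h => ?_⟩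
        refine lt_of_le_of_ne h fun h' => hno n hn ((z, w0), 0) ⟨h'.ge, ?_⟩
        rw [h']; norm_num
      rw [this]
      exact isClosed_le hc continuous_const
    · exact isOpen_lt hc continuous_const
  have hvert : ∀ n (γ : Γ), T.e' n (γ, 0) = T.e' n ((γ.1, w0), 0) := by
    intro n γ
    exact Subtype.ext (T.vert n _ _ rfl)
  have hglue : ∀ n (γ : Γ), T.e' n (γ, 1) = T.e' (n + 1) ((g n γ, w0), 0) := by
    intro n γ
    exact Subtype.ext (T.glue n γ w0)
  have hinv : ∀ n, N ≤ n → ∀ γ : Γ, a n γ.1 = a (n + 1) (g n γ) := by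
    intro n hn γ
    simp only [a]
    rw [← hvert n γ, ← hglue n γ]
    by_cases h : F (T.e' n (γ, 0)) < 1 / 3
    · have h2 := hside n hn γ 0 1 h
      simp only [h, h2]
    · have h2 : ¬ F (T.e' n (γ, 1)) < 1 / 3 := fun h' => h (hside n hn γ 1 0 h')
      simp only [h, h2]
  have hcore := core N a ha hinv
  -- constant along n
  have hcn : ∀ k, a (N + k) w0 = a N w0 := by
    intro k
    induction k with
    | zero => rfl
    | succ k ih =>
      rw [← ih, hinv (N + k) (by omega) (w0, w0)]
      exact hcore (N + k + 1) (by omega) _ _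
  have hall : ∀ n, N ≤ n → ∀ z, a n z = a N w0 := by
    intro n hn z
    obtain ⟨k, rfl⟩ := Nat.exists_eq_add_of_le hn
    rw [← hcn k]
    exact hcore _ hn _ _
  cases hb : a N w0 with
  | true =>
    left
    rintro n hn ⟨γ, r⟩
    have h1 : a n γ.1 = true := by rw [hall n hn, hb]
    have h2 : F (T.e' n ((γ.1, w0), 0)) < 1 / 3 := of_decide_eq_true h1
    rw [← hvert n γ] at h2
    exact hside n hn γ 0 r h2
  | false =>
    right
    rintro n hn ⟨γ, r⟩
    have h1 : a n γ.1 = false := by rw [hall n hn, hb]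
    have h2 : ¬ F (T.e' n ((γ.1, w0), 0)) < 1 / 3 := of_decide_eq_false h1
    rw [← hvert n γ] at h2
    exact hdich n hn _ fun h3 => h2 (hside n hn γ r 0 h3)

/-- a continuous function on the Stone-Cech compactification with values 0, 1 on the remainder
avoids the middle interval on the tails -/
lemma avoid (f : StoneCech {x : X // x ≠ p} → ℝ) (hf : Continuous f) (C : Set {x : X // x ≠ p})
    (h01 : ∀ z ∈ remainder {x : X // x ≠ p}, z ∈ closure (stoneCechUnit '' C) → f z = 0 ∨ f z = 1) :
    ∃ N, ∀ n, N ≤ n → ∀ q, T.e' n q ∈ C →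
      ¬ (1 / 3 ≤ f (stoneCechUnit (T.e' n q)) ∧ f (stoneCechUnit (T.e' n q)) ≤ 2 / 3) := by
  by_contra hcon
  push Not at hcon
  choose n hn q hC h1 h2 using hcon
  obtain ⟨z, hz, hzc⟩ := cluster_point (p := p) (y := fun k => T.e' (n k) (q k))
    (T.tendsto_tail (tendsto_atTop_mono hn tendsto_id) _)
  have h3 : z ∈ f ⁻¹' (Icc (1 / 3) (2 / 3)) :=
    cluster_closed hzc (isClosed_Icc.preimage hf) (fun k => ⟨h1 k, h2 k⟩)
  have h4 : z ∈ closure (stoneCechUnit '' C) :=
    cluster_closed hzc isClosed_closure (fun k => subset_closure ⟨_, hC k, rfl⟩)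
  have h5 : 1 / 3 ≤ f z := h3.1
  have h6 : f z ≤ 2 / 3 := h3.2
  rcases h01 z hz h4 with h | h
  · rw [h] at h5; norm_num at h5
  · rw [h] at h6; norm_num at h6

lemma remainder_continuum : IsContinuum (remainder {x : X // x ≠ p}) := by
  refine ⟨(remainder_isClosed p).isCompact, T.remainder_nonempty, ?_⟩
  rw [isPreconnected_iff_subset_of_fully_disjoint_closed (remainder_isClosed p)]
  intro u v hu hv hsub hdis
  have hRc := remainder_isClosed p
  obtain ⟨f, hf0, hf1, hf⟩ := exists_continuous_zero_one_of_isClosed (hRc.inter hu) (hRc.inter hv)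
    (hdis.mono inter_subset_right inter_subset_right)
  obtain ⟨N, hN⟩ := T.avoid (f := f) f.continuous univ (by
    intro z hz _
    rcases hsub hz with h | h
    · exact Or.inl (hf0 ⟨hz, h⟩)
    · exact Or.inr (hf1 ⟨hz, h⟩))
  obtain ⟨ε, hε, htail⟩ := T.in_tail N
  rcases T.one_side (fun y => f (stoneCechUnit y)) (f.continuous.comp continuous_stoneCechUnit) N
    (fun n hn q => hN n hn q (mem_univ _)) with h | h
  · left
    intro z hz
    rcases hsub hz with hzu | hzv
    · exact hzu
    · exfalso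
      have hz1 : f z = 1 := hf1 ⟨hz, hzv⟩
      obtain ⟨y, hy, hyO⟩ := near_point hz (isOpen_Ioi.preimage f.continuous)
        (show z ∈ f ⁻¹' (Ioi (1 / 2)) by
          show 1 / 2 < f z
          rw [hz1]; norm_num) hε
      obtain ⟨n, hn, q, hq⟩ := htail y.1 y.2 hy
      have hyq : T.e' n q = y := Subtype.ext hq
      have h1 := h n hn q
      rw [hyq] at h1
      have h2 : 1 / 2 < f (stoneCechUnit y) := hyO
      linarith
  · right
    intro z hz
    rcases hsub hz with hzu | hzv
    · exfalso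
      have hz1 : f z = 0 := hf0 ⟨hz, hzu⟩
      obtain ⟨y, hy, hyO⟩ := near_point hz (isOpen_Iio.preimage f.continuous)
        (show z ∈ f ⁻¹' (Iio (1 / 2)) by
          show f z < 1 / 2
          rw [hz1]; norm_num) hε
      obtain ⟨n, hn, q, hq⟩ := htail y.1 y.2 hy
      have hyq : T.e' n q = y := Subtype.ext hq
      have h1 := h n hn q
      rw [hyq] at h1
      have h2 : f (stoneCechUnit y) < 1 / 2 := hyO
      linarith
    · exact hzv

end Tel

end Pool.Agent.H70
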