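import Mathlib
import Pool.Agent.H70.Tel2

/-! Separation in the telescope and indecomposability of the remainder. -/

open Set Filter Topology Metric

set_option linter.unusedSectionVars false

namespace Pool.Agent.H70

lemma exists_bits (b : ℕ → Bool) (m : ℕ) : ∃ e : ℕ, ∀ i < m, e.testBit i = b i := by
  induction m generalizing b with
  | zero => exact ⟨0, fun i hi => absurd hi (Nat.not_lt_zero i)⟩
  | succ m ih =>
    obtain ⟨e, he⟩ := ih (fun i => b (i + 1))
    refine ⟨Nat.bit (b 0) e, ?_⟩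
    intro i hi
    cases i with
    | zero => rw [Nat.testBit_bit_zero]
    | succ i => rw [Nat.testBit_bit_succ]; exact he i (by omega)

lemma exists_cyl (k : ℕ) (γ : Γ) : ∃ c, ∀ γ' : Γ, γ' ∈ Cyl c → ∀ i < k, γ'.1 i = γ.1 i ∧ γ'.2 i = γ.2 i := by
  obtain ⟨e, he⟩ := exists_bits (fun i => if i % 2 = 0 then γ.1 (i / 2) else γ.2 (i / 2)) (2 * k)
  refine ⟨Nat.pair k e, ?_⟩
  intro γ' hγ' i hi
  unfold Cyl at hγ'
  simp only [Nat.unpair_pair, mem_ofPred_eq] at hγ'
  obtain ⟨h1, h2⟩ := hγ' i hi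
  rw [h1, h2, he (2 * i) (by omega), he (2 * i + 1) (by omega)]
  have e1 : (2 * i) % 2 = 0 := by omega
  have e2 : (2 * i) / 2 = i := by omega
  have e3 : ¬ (2 * i + 1) % 2 = 0 := by omega
  have e4 : (2 * i + 1) / 2 = i := by omega
  simp only [e1, e2, e3, e4, if_true, if_false]
  exact ⟨trivial, trivial⟩

lemma nhds_Z {z : Z} {U : Set Z} (hU : U ∈ 𝓝 z) : ∃ k, ∀ z' : Z, (∀ i < k, z' i = z i) → z' ∈ U := by
  rw [nhds_pi, Filter.mem_pi] at hU
  obtain ⟨I, hI, t, ht, hsub⟩ := hU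
  obtain ⟨k, hk⟩ := hI.bddAbove
  refine ⟨k + 1, fun z' hz' => hsub ?_⟩
  intro i hi
  rw [hz' i (Nat.lt_succ_of_le (hk hi))]
  exact mem_of_mem_nhds (ht i)

lemma nhds_Γ {γ : Γ} {U : Set Γ} (hU : U ∈ 𝓝 γ) :
    ∃ k, ∀ γ' : Γ, (∀ i < k, γ'.1 i = γ.1 i ∧ γ'.2 i = γ.2 i) → γ' ∈ U := by
  rw [nhds_prod_eq, Filter.mem_prod_iff] at hU
  obtain ⟨U1, h1, U2, h2, hsub⟩ := hU
  obtain ⟨k1, hk1⟩ := nhds_Z h1
  obtain ⟨k2, hk2⟩ := nhds_Z h2
  refine ⟨max k1 k2, fun γ' h => hsub ⟨hk1 _ fun i hi => (h i (lt_max_of_lt_left hi)).1,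
    hk2 _ fun i hi => (h i (lt_max_of_lt_right hi)).2⟩⟩

lemma nhds_I {r : unitInterval} {U : Set unitInterval} (hU : U ∈ 𝓝 r) :
    ∃ a b : ℝ, 0 < a ∧ a < b ∧ b < 1 ∧ ∀ r' : unitInterval, a ≤ (r' : ℝ) → (r' : ℝ) ≤ b → r' ∈ U := by
  obtain ⟨ε, hε, hb⟩ := Metric.mem_nhds_iff.1 hU
  have hr0 := r.2.1
  have hr1 := r.2.2
  have hlo : max 0 ((r : ℝ) - ε) < min 1 ((r : ℝ) + ε) := by
    apply max_lt <;> apply lt_min <;> linarith
  set lo := max 0 ((r : ℝ) - ε) with hlo'
  set hi := min 1 ((r : ℝ) + ε) with hhi'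
  have h1 : 0 ≤ lo := le_max_left _ _
  have h2 : (r : ℝ) - ε ≤ lo := le_max_right _ _
  have h3 : hi ≤ 1 := min_le_left _ _
  have h4 : hi ≤ (r : ℝ) + ε := min_le_right _ _
  refine ⟨(2 * lo + hi) / 3, (lo + 2 * hi) / 3, by linarith, by linarith, by linarith, ?_⟩
  intro r' h5 h6
  apply hb
  rw [mem_ball, Subtype.dist_eq, Real.dist_eq, abs_lt]
  constructor <;> linarith

lemma box {U : Set (Γ × unitInterval)} (hU : IsOpen U) {q : Γ × unitInterval} (hq : q ∈ U) :
    ∃ (c : ℕ) (a b : ℝ), 0 < a ∧ a < b ∧ b < 1 ∧ ∀ γ ∈ Cyl c, ∀ r : unitInterval,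
      a ≤ (r : ℝ) → (r : ℝ) ≤ b → (γ, r) ∈ U := by
  obtain ⟨γ, r⟩ := q
  have h := hU.mem_nhds hq
  rw [nhds_prod_eq, Filter.mem_prod_iff] at h
  obtain ⟨U1, h1, U2, h2, hsub⟩ := h
  obtain ⟨k, hk⟩ := nhds_Γ h1
  obtain ⟨a, b, h3, h4, h5, h6⟩ := nhds_I h2
  obtain ⟨c, hc⟩ := exists_cyl k γ
  exact ⟨c, a, b, h3, h4, h5, fun γ' hγ' r' h7 h8 => hsub ⟨hk γ' (hc γ' hγ'), h6 r' h7 h8⟩⟩

namespace Tel

variable {X : Type} [MetricSpace X] [CompactSpace X] {p : X} (T : Tel X p)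

include T

/-- accumulation at `p` -/
def Acc (p : X) (O : Set {x : X // x ≠ p}) : Prop := ∀ ε > 0, ∃ y ∈ O, dist y.1 p < ε

lemma box_in {O : Set {x : X // x ≠ p}} (hO : IsOpen O) (hacc : Acc p O) (N : ℕ) :
    ∃ n, N ≤ n ∧ ∃ (c : ℕ) (a b : ℝ), 0 < a ∧ a < b ∧ b < 1 ∧ ∀ γ ∈ Cyl c, ∀ r : unitInterval,
      a ≤ (r : ℝ) → (r : ℝ) ≤ b → T.e' n (γ, r) ∈ O := by
  obtain ⟨ε, hε, h⟩ := T.in_tail N
  obtain ⟨y, hy, hyp⟩ := hacc ε hε
  obtain ⟨n, hn, q, hq⟩ := h y.1 y.2 hyp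
  refine ⟨n, hn, ?_⟩
  have hyq : T.e' n q = y := Subtype.ext hq
  exact box (hO.preimage (T.cont' n)) (q := q) (by rw [mem_preimage, hyq]; exact hy)

/-- the step relation of threads -/
def Step (W O : Set {x : X // x ≠ p}) (t t' : ℕ) : Prop :=
  t' ≠ 0 ∧ par t' = t ∧ (∃ n, tm t < n ∧ n < tm t' ∧ ∃ (r : unitInterval) (c : ℕ), c < t' ∧
    ∀ γ ∈ Cyl c, T.e' n (γ, r) ∈ O) ∧
  ∃ a b : ℝ, 0 < a ∧ a < b ∧ b < 1 ∧ ∀ γ ∈ Cyl (code t'), ∀ r : unitInterval,
      a ≤ (r : ℝ) → (r : ℝ) ≤ b → T.e' (tm t') (γ, r) ∈ W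

lemma step_exists {W O : Set {x : X // x ≠ p}} (hW : IsOpen W) (haW : Acc p W)
    (hO : IsOpen O) (haO : Acc p O) (t : ℕ) : ∃ t', T.Step W O t t' := by
  obtain ⟨n1, hn1, c1, a1, b1, ha1, hab1, hb1, h1⟩ := T.box_in hO haO (tm t + 1)
  obtain ⟨n2, hn2, c2, a2, b2, ha2, hab2, hb2, h2⟩ := T.box_in hW haW (n1 + 1 + c1 + 1 + tm t + 1)
  set d := n2 - tm t - 1 with hd
  have e0 : Nat.pair t (Nat.pair d c2) + 1 - 1 = Nat.pair t (Nat.pair d c2) := by omega
  have e1 : par (Nat.pair t (Nat.pair d c2) + 1) = t := by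
    unfold par; rw [e0]; simp
  have e2 : dl (Nat.pair t (Nat.pair d c2) + 1) = d := by
    unfold dl; rw [e0]; simp
  have e3 : code (Nat.pair t (Nat.pair d c2) + 1) = c2 := by
    unfold code; rw [e0]; simp
  have e4 : tm (Nat.pair t (Nat.pair d c2) + 1) = n2 := by
    rw [tm_pos (by omega), e1, e2]; omega
  refine ⟨Nat.pair t (Nat.pair d c2) + 1, by omega, e1,
    ⟨n1, by omega, by rw [e4]; omega, ⟨a1, by linarith, by linarith⟩, c1, ?_, ?_⟩,
    a2, b2, ha2, hab2, hb2, ?_⟩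
  · have h3 := Nat.right_le_pair t (Nat.pair d c2)
    have h4 := Nat.left_le_pair d c2
    omega
  · intro γ hγ
    exact h1 γ hγ _ le_rfl hab1.le
  · rw [e3, e4]
    exact h2

lemma sep {W O : Set {x : X // x ≠ p}} (hW : IsOpen W) (haW : Acc p W)
    (hO : IsOpen O) (haO : Acc p O) : ∃ P Q : Set {x : X // x ≠ p}, IsClosed P ∧ IsClosed Q ∧
      Disjoint P Q ∧ (∀ n, 1 ≤ n → ∀ q, T.e' n q ∈ P ∨ T.e' n q ∈ Q ∨ T.e' n q ∈ W) ∧
      Acc p (O ∩ P) ∧ Acc p (O ∩ Q) := by
  classical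
  choose nx hnx using T.step_exists hW haW hO haO
  let τ : ℕ → ℕ := fun j => Nat.rec 0 (fun _ t => nx t) j
  have hτ0 : τ 0 = 0 := rfl
  have hτ : ∀ j, T.Step W O (τ j) (τ (j + 1)) := fun j => hnx (τ j)
  have hs0 : tm (τ 0) = 0 := by rw [hτ0, tm_zero]
  have hsm : StrictMono fun j => tm (τ j) := by
    apply strictMono_nat_of_lt_succ
    intro j
    obtain ⟨_, _, ⟨n, h1, h2, _⟩, _⟩ := hτ j
    exact h1.trans h2
  have hex : ∀ n, ∃ j, n ≤ tm (τ j) := fun n => ⟨n, hsm.id_le n⟩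
  let J : ℕ → ℕ := fun n => Nat.find (hex n)
  have hJ1 : ∀ n, n ≤ tm (τ (J n)) := fun n => Nat.find_spec (hex n)
  have hJ2 : ∀ n j, j < J n → tm (τ j) < n := fun n j hj => not_le.1 (Nat.find_min (hex n) hj)
  have hJeq : ∀ n j, n ≤ tm (τ j) → (∀ i, i < j → tm (τ i) < n) → J n = j := by
    intro n j h1 h2
    apply le_antisymm (Nat.find_min' (hex n) h1)
    by_contra h
    have := h2 (J n) (not_le.1 h)
    have := hJ1 n
    omega
  have hJlt : ∀ n, n < tm (τ (J n)) → J (n + 1) = J n := by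
    intro n hn
    apply hJeq
    · omega
    · intro i hi
      have := hJ2 n i hi
      omega
  have hJend : ∀ n, n = tm (τ (J n)) → J (n + 1) = J n + 1 := by
    intro n hn
    apply hJeq
    · have : tm (τ (J n)) < tm (τ (J n + 1)) := hsm (Nat.lt_succ_self _)
      omega
    · intro i hi
      have : tm (τ i) ≤ tm (τ (J n)) := hsm.monotone (Nat.le_of_lt_succ hi)
      omega
  -- the critical clopen sets
  let D : ℕ → Set Γ := fun n => if n = tm (τ (J n)) then Cyl (code (τ (J n))) else ∅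
  have hD : ∀ n, IsClopen (D n) := by
    intro n
    simp only [D]
    split_ifs
    · exact cyl_isClopen _
    · exact isClopen_empty
  have hkeep : ∀ n (γ : Γ), γ ∉ D n → γ.1 (τ (J n)) = g n γ (τ (J (n + 1))) := by
    intro n γ hγ
    rcases lt_or_eq_of_le (hJ1 n) with h | h
    · rw [hJlt n h]
      have hJ0 : J n ≠ 0 := by
        intro h0
        rw [h0, hs0] at h
        omega
      obtain ⟨i, hi⟩ := Nat.exists_eq_succ_of_ne_zero hJ0
      obtain ⟨h1, h2, _⟩ := hτ i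
      have h3 : tm (τ i) < n := hJ2 n i (by omega)
      have h4 : τ (J n) = τ (i + 1) := by rw [hi]
      rw [h4] at h ⊢
      unfold g
      rw [if_neg h1, h2, if_neg (by omega), if_neg (by omega), if_pos h]
    · rw [hJend n h]
      obtain ⟨h1, h2, _⟩ := hτ (J n)
      have h5 : γ ∉ Cyl (code (τ (J n))) := by
        intro h6
        apply hγ
        simp only [D]
        rw [if_pos h]
        exact h6
      unfold g
      rw [if_neg h1, h2, if_neg (by omega), if_pos h, if_neg h5]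
  -- the splitting parameters
  have hpar : ∀ j, ∃ a b : ℝ, 0 < a ∧ a < b ∧ b < 1 ∧ (j ≠ 0 → ∀ γ ∈ Cyl (code (τ j)),
      ∀ r : unitInterval, a ≤ (r : ℝ) → (r : ℝ) ≤ b → T.e' (tm (τ j)) (γ, r) ∈ W) := by
    intro j
    cases j with
    | zero => exact ⟨1 / 3, 2 / 3, by norm_num, by norm_num, by norm_num, fun h => absurd rfl h⟩
    | succ i =>
      obtain ⟨_, _, _, a, b, h1, h2, h3, h4⟩ := hτ i
      exact ⟨a, b, h1, h2, h3, fun _ => h4⟩
  choose α β hα hαβ hβ hWab using hpar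
  let S : Bool → ℕ → Set (Γ × unitInterval) := fun b n =>
    {q | (q.1.1 (τ (J n)) = b ∧ ((q.2 : ℝ) ≤ α (J n) ∨ q.1 ∉ D n)) ∨
      (g n q.1 (τ (J (n + 1))) = b ∧ (β (J n) ≤ (q.2 : ℝ) ∨ q.1 ∉ D n))}
  have hSclosed : ∀ b n, IsClosed (S b n) := by
    intro b n
    have c1 : Continuous fun q : Γ × unitInterval => q.1.1 (τ (J n)) :=
      (continuous_apply _).comp (continuous_fst.comp continuous_fst)
    have c2 : Continuous fun q : Γ × unitInterval => g n q.1 (τ (J (n + 1))) :=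
      (continuous_apply (τ (J (n + 1)))).comp ((g_cont n).comp (f := fun q : Γ × unitInterval => q.1) continuous_fst)
    have c3 : Continuous fun q : Γ × unitInterval => (q.2 : ℝ) :=
      continuous_subtype_val.comp continuous_snd
    have c4 : IsClosed {q : Γ × unitInterval | q.1 ∉ D n} :=
      (hD n).compl.isClosed.preimage continuous_fst
    have c5 : IsClosed {q : Γ × unitInterval | q.1.1 (τ (J n)) = b} :=
      isClosed_singleton.preimage c1
    have c6 : IsClosed {q : Γ × unitInterval | g n q.1 (τ (J (n + 1))) = b} :=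
      isClosed_singleton.preimage c2
    exact (c5.inter ((isClosed_le c3 continuous_const).union c4)).union
      (c6.inter ((isClosed_le continuous_const c3).union c4))
  have hS0 : ∀ b n (γ : Γ), (γ, (0 : unitInterval)) ∈ S b n ↔ γ.1 ∈ {z : Z | z (τ (J n)) = b} := by
    intro b n γ
    simp only [S, mem_ofPred_eq]
    constructor
    · rintro (⟨h1, _⟩ | ⟨h1, h2 | h2⟩)
      · exact h1
      · exfalso
        have h3 := hα (J n)
        have h4 := hαβ (J n)
        have h5 : β (J n) ≤ 0 := h2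
        linarith
      · rw [hkeep n γ h2]; exact h1
    · intro h
      left
      refine ⟨h, Or.inl ?_⟩
      exact (hα (J n)).le
  have hS1 : ∀ b n (γ : Γ), (γ, (1 : unitInterval)) ∈ S b n ↔
      g n γ ∈ {z : Z | z (τ (J (n + 1))) = b} := by
    intro b n γ
    simp only [S, mem_ofPred_eq]
    constructor
    · rintro (⟨h1, h2 | h2⟩ | ⟨h1, _⟩)
      · exfalso
        have h3 := hβ (J n)
        have h4 := hαβ (J n)
        have h5 : (1 : ℝ) ≤ α (J n) := h2
        linarith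
      · rw [← hkeep n γ h2]; exact h1
      · exact h1
    · intro h
      right
      refine ⟨h, Or.inl ?_⟩
      exact (hβ (J n)).le
  let P : Bool → Set {x : X // x ≠ p} := fun b => {y | ∃ n q, T.e' n q = y ∧ q ∈ S b n}
  have hpre : ∀ b n, T.e' n ⁻¹' P b = S b n := by
    intro b n
    ext q
    constructor
    · rintro ⟨n', q', h, hq'⟩
      have h' : T.e n' q' = T.e n q := congrArg Subtype.val h
      exact (T.compat (B := fun n => {z : Z | z (τ (J n)) = b}) (hS0 b) (hS1 b) h').1 hq'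
    · intro h
      exact ⟨n, q, rfl, h⟩
  have hPclosed : ∀ b, IsClosed (P b) := by
    intro b
    apply T.isClosed_of'
    intro n
    rw [hpre]
    exact hSclosed b n
  refine ⟨P true, P false, hPclosed true, hPclosed false, ?_, ?_, ?_⟩
  · rw [Set.disjoint_left]
    rintro y ⟨n, q, rfl, hq⟩ h
    have hq2 : q ∈ S false n := by rw [← hpre]; exact h
    simp only [S, mem_ofPred_eq] at hq hq2
    have h3 := hαβ (J n)
    rcases hq with ⟨h1, h1'⟩ | ⟨h1, h1'⟩ <;> rcases hq2 with ⟨h2, h2'⟩ | ⟨h2, h2'⟩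
    · rw [h1] at h2; exact absurd h2 (by simp)
    · by_cases hqD : q.1 ∈ D n
      · rcases h1' with h1' | h1'
        · rcases h2' with h2' | h2'
          · linarith
          · exact h2' hqD
        · exact h1' hqD
      · rw [hkeep n q.1 hqD, h2] at h1; exact absurd h1 (by simp)
    · by_cases hqD : q.1 ∈ D n
      · rcases h1' with h1' | h1'
        · rcases h2' with h2' | h2'
          · linarith
          · exact h2' hqD
        · exact h1' hqD
      · rw [← hkeep n q.1 hqD, h2] at h1; exact absurd h1 (by simp)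
    · rw [h1] at h2; exact absurd h2 (by simp)
  · intro n hn q
    have hPS : ∀ b, T.e' n q ∈ P b ↔ q ∈ S b n := by
      intro b
      rw [← hpre b n]; rfl
    rw [hPS, hPS]
    by_cases h1 : q.1 ∈ D n ∧ α (J n) < (q.2 : ℝ) ∧ (q.2 : ℝ) < β (J n)
    · obtain ⟨h1, h2, h3⟩ := h1
      right; right
      have hnend : n = tm (τ (J n)) := by
        by_contra h
        simp only [D] at h1
        rw [if_neg h] at h1
        exact h1
      have hCy : q.1 ∈ Cyl (code (τ (J n))) := by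
        simp only [D] at h1
        rwa [if_pos hnend] at h1
      have hJ0 : J n ≠ 0 := by
        intro h0
        rw [h0, hs0] at hnend
        omega
      have := hWab (J n) hJ0 q.1 hCy q.2 h2.le h3.le
      rw [← hnend] at this
      exact this
    · by_cases h2 : q.1 ∈ D n
      · by_cases h3 : (q.2 : ℝ) ≤ α (J n)
        · cases hb : q.1.1 (τ (J n)) with
          | true => left; left; exact ⟨hb, Or.inl h3⟩
          | false => right; left; left; exact ⟨hb, Or.inl h3⟩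
        · have h4 : β (J n) ≤ (q.2 : ℝ) := by
            by_contra h4
            exact h1 ⟨h2, not_le.1 h3, not_le.1 h4⟩
          cases hb : g n q.1 (τ (J (n + 1))) with
          | true => left; right; exact ⟨hb, Or.inl h4⟩
          | false => right; left; right; exact ⟨hb, Or.inl h4⟩
      · cases hb : q.1.1 (τ (J n)) with
        | true => left; left; exact ⟨hb, Or.inr h2⟩
        | false => right; left; left; exact ⟨hb, Or.inr h2⟩
  · have key : ∀ b, Acc p (O ∩ P b) := by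
      intro b ε hε
      obtain ⟨N, hN⟩ := T.near_p (isOpen_ball (x := p) (ε := ε)) (mem_ball_self hε)
      obtain ⟨h1, h2, ⟨n, h3, h4, r, c, hc, hcO⟩, _⟩ := hτ N
      have hNn : N ≤ n := by
        have : N ≤ tm (τ N) := hsm.id_le N
        omega
      have hJn : J n = N + 1 := by
        apply hJeq
        · omega
        · intro i hi
          have : tm (τ i) ≤ tm (τ N) := hsm.monotone (Nat.le_of_lt_succ hi)
          omega
      obtain ⟨γ0, hγ0⟩ := cyl_nonempty c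
      let γ : Γ := (Function.update γ0.1 (τ (N + 1)) b, γ0.2)
      have hγ : γ ∈ Cyl c := by
        refine (cyl_congr (γ := γ0) (γ' := γ) (fun i hi => ?_) (fun i hi => rfl)).1 hγ0
        have : i ≠ τ (N + 1) := by omega
        simp [γ, this]
      have hγD : γ ∉ D n := by
        simp only [D]
        rw [if_neg (by rw [hJn]; omega)]
        exact notMem_empty _
      refine ⟨T.e' n (γ, r), ⟨hcO γ hγ, ?_⟩, mem_ball.1 (hN n hNn (γ, r))⟩
      refine ⟨n, (γ, r), rfl, Or.inl ⟨?_, Or.inr hγD⟩⟩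
      simp [γ, hJn]
    exact ⟨key true, key false⟩

end Tel

end Pool.Agent.H70
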