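import Mathlib
import Pool.Agent.H70.Sep

/-! Indecomposability of the remainder, and failure of the decomposition. -/

open Set Filter Topology Metric

set_option linter.unusedSectionVars false

namespace Pool.Agent.H70

lemma exists_relclopen {X : Type} [TopologicalSpace X] [T2Space X] {K : Set X}
    (hK : IsCompact K) {x : X} (hx : x ∈ K) {O : Set X} (hO : IsOpen O)
    (hsub : connectedComponentIn K x ⊆ O) :
    ∃ D ⊆ K, x ∈ D ∧ IsClosed D ∧ IsClosed (K \ D) ∧ D ⊆ O := by
  have : CompactSpace K := isCompact_iff_compactSpace.1 hK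
  let x' : K := ⟨x, hx⟩
  rw [connectedComponentIn_eq_image hx] at hsub
  have hC : connectedComponent x' ⊆ (Subtype.val ⁻¹' O : Set K) := by
    intro y hy
    exact hsub ⟨y, hy, rfl⟩
  rw [connectedComponent_eq_iInter_isClopen] at hC
  have hopen : IsOpen (Subtype.val ⁻¹' O : Set K) := hO.preimage continuous_subtype_val
  have hne : Nonempty {s : Set K // IsClopen s ∧ x' ∈ s} :=
    ⟨⟨univ, isClopen_univ, mem_univ _⟩⟩
  obtain ⟨⟨s, hs, hxs⟩, hsO⟩ := exists_subset_nhds_of_isCompact' (ι := {s : Set K // IsClopen s ∧ x' ∈ s})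
    (V := fun s => s.1) (by
      intro a b
      refine ⟨⟨a.1 ∩ b.1, a.2.1.inter b.2.1, a.2.2, b.2.2⟩, ?_, ?_⟩
      · exact inter_subset_left
      · exact inter_subset_right)
    (fun s => s.2.1.isClosed.isCompact) (fun s => s.2.1.isClosed)
    (U := (Subtype.val ⁻¹' O : Set K)) (fun y hy => hopen.mem_nhds (hC hy))
  refine ⟨Subtype.val '' s, ?_, ⟨x', hxs, rfl⟩, ?_, ?_, ?_⟩
  · rintro _ ⟨y, _, rfl⟩
    exact y.2
  · exact (hs.isClosed.isCompact.image continuous_subtype_val).isClosed
  · have : K \ (Subtype.val '' s) = Subtype.val '' sᶜ := by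
      ext y
      constructor
      · rintro ⟨hy, hy2⟩
        exact ⟨⟨y, hy⟩, fun h => hy2 ⟨_, h, rfl⟩, rfl⟩
      · rintro ⟨y, hy, rfl⟩
        refine ⟨y.2, ?_⟩
        rintro ⟨z, hz, hzy⟩
        exact hy (Subtype.ext hzy ▸ hz)
    rw [this]
    exact (hs.compl.isClosed.isCompact.image continuous_subtype_val).isClosed
  · rintro _ ⟨y, hy, rfl⟩
    exact hsO hy

namespace Tel

variable {X : Type} [MetricSpace X] [CompactSpace X] {p : X} (T : Tel X p)

include T

lemma acc_of_remainder {f : StoneCech {x : X // x ≠ p} → ℝ} (hf : Continuous f)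
    {z : StoneCech {x : X // x ≠ p}} (hz : z ∈ remainder {x : X // x ≠ p}) (h1 : f z = 1) :
    Acc p {y : {x : X // x ≠ p} | 1 / 2 < f (stoneCechUnit y)} := by
  intro ε hε
  obtain ⟨y, hy, hyO⟩ := near_point hz (isOpen_Ioi.preimage hf)
    (show z ∈ f ⁻¹' (Ioi (1 / 2)) by
      show 1 / 2 < f z
      rw [h1]; norm_num) hε
  exact ⟨y, hyO, hy⟩

lemma cluster_of_acc {O P : Set {x : X // x ≠ p}} (h : Acc p (O ∩ P)) :
    ∃ z ∈ remainder {x : X // x ≠ p}, z ∈ closure (stoneCechUnit '' O) ∧
      z ∈ closure (stoneCechUnit '' P) := by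
  choose y hy hyd using fun n : ℕ => h (1 / ((n : ℝ) + 1)) (by positivity)
  have hlim : Tendsto (fun n => (y n).1) atTop (𝓝 p) := by
    rw [tendsto_iff_dist_tendsto_zero]
    exact squeeze_zero (fun n => dist_nonneg) (fun n => (hyd n).le)
      tendsto_one_div_add_atTop_nhds_zero_nat
  obtain ⟨z, hz, hzc⟩ := cluster_point hlim
  exact ⟨z, hz, cluster_closed hzc isClosed_closure fun n => subset_closure ⟨_, (hy n).1, rfl⟩,
    cluster_closed hzc isClosed_closure fun n => subset_closure ⟨_, (hy n).2, rfl⟩⟩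

/-- the remainder is an indecomposable continuum -/
theorem indecomposable : IsIndecomposable (remainder {x : X // x ≠ p}) := by
  refine ⟨T.remainder_continuum, ?_⟩
  intro A B hA hB hAB
  by_contra hcon
  push Not at hcon
  obtain ⟨hAne, hBne⟩ := hcon
  have hAR : A ⊆ remainder {x : X // x ≠ p} := by rw [← hAB]; exact subset_union_left
  have hBR : B ⊆ remainder {x : X // x ≠ p} := by rw [← hAB]; exact subset_union_right
  obtain ⟨z1, hz1R, hz1A⟩ : ∃ z ∈ remainder {x : X // x ≠ p}, z ∉ A := by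
    by_contra h
    push Not at h
    exact hAne (hAR.antisymm h)
  obtain ⟨z0, hz0R, hz0B⟩ : ∃ z ∈ remainder {x : X // x ≠ p}, z ∉ B := by
    by_contra h
    push Not at h
    exact hBne (hBR.antisymm h)
  have hAc : IsClosed A := hA.1.isClosed
  have hBc : IsClosed B := hB.1.isClosed
  obtain ⟨gg, hg0, hg1, -⟩ := exists_continuous_zero_one_of_isClosed hBc
    (isClosed_singleton (x := z0)) (Set.disjoint_singleton_right.2 hz0B)
  obtain ⟨hh, hh0, hh1, -⟩ := exists_continuous_zero_one_of_isClosed hAc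
    (isClosed_singleton (x := z1)) (Set.disjoint_singleton_right.2 hz1A)
  let W : Set {x : X // x ≠ p} := {y | 1 / 2 < gg (stoneCechUnit y)}
  let O : Set {x : X // x ≠ p} := {y | 1 / 2 < hh (stoneCechUnit y)}
  have hW : IsOpen W := isOpen_lt continuous_const (gg.continuous.comp continuous_stoneCechUnit)
  have hO : IsOpen O := isOpen_lt continuous_const (hh.continuous.comp continuous_stoneCechUnit)
  obtain ⟨P, Q, hP, hQ, hPQ, hcov, hOP, hOQ⟩ := T.sep hW
    (T.acc_of_remainder gg.continuous hz0R (hg1 rfl)) hO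
    (T.acc_of_remainder hh.continuous hz1R (hh1 rfl))
  obtain ⟨G, hG, hG0, hG1⟩ := ext_fun hP hQ hPQ
  obtain ⟨ε, hε, htail⟩ := T.in_tail 1
  have hG01 : ∀ z ∈ B, G z = 0 ∨ G z = 1 := by
    intro z hz
    by_contra h
    push Not at h
    have hopen : IsOpen (G ⁻¹' ({0, 1}ᶜ) ∩ gg ⁻¹' (Iio (1 / 2))) :=
      ((Set.toFinite {(0 : ℝ), 1}).isClosed.isOpen_compl.preimage hG).inter
        (isOpen_Iio.preimage gg.continuous)
    obtain ⟨y, hy, hyG, hyg⟩ := near_point (hBR hz) hopen
      (show z ∈ _ from ⟨by simp [h.1, h.2], by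
        show gg z < 1 / 2
        rw [hg0 hz]; norm_num⟩) hε
    obtain ⟨n, hn, q, hq⟩ := htail y.1 y.2 hy
    have hyq : T.e' n q = y := Subtype.ext hq
    rcases hcov n hn q with h1 | h1 | h1 <;> rw [hyq] at h1
    · apply hyG
      rw [hG0 y h1]; simp
    · apply hyG
      rw [hG1 y h1]; simp
    · have h2 : gg (stoneCechUnit y) < 1 / 2 := hyg
      have h3 : 1 / 2 < gg (stoneCechUnit y) := h1
      linarith
  have hclO : closure (stoneCechUnit '' O) ⊆ hh ⁻¹' (Ici (1 / 2)) := by
    refine closure_minimal ?_ (isClosed_Ici.preimage hh.continuous)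
    rintro _ ⟨y, hy, rfl⟩
    exact le_of_lt (show 1 / 2 < hh (stoneCechUnit y) from hy)
  have hclP : closure (stoneCechUnit '' P) ⊆ G ⁻¹' {0} := by
    refine closure_minimal ?_ (isClosed_singleton.preimage hG)
    rintro _ ⟨y, hy, rfl⟩
    exact hG0 y hy
  have hclQ : closure (stoneCechUnit '' Q) ⊆ G ⁻¹' {1} := by
    refine closure_minimal ?_ (isClosed_singleton.preimage hG)
    rintro _ ⟨y, hy, rfl⟩
    exact hG1 y hy
  have hOA : ∀ z, z ∈ closure (stoneCechUnit '' O) → z ∉ A := by
    intro z hz hzA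
    have h1 : 1 / 2 ≤ hh z := hclO hz
    rw [hh0 hzA] at h1
    norm_num at h1
  have hside : B ⊆ G ⁻¹' {0} ∨ B ⊆ G ⁻¹' {1} := by
    refine (isPreconnected_iff_subset_of_fully_disjoint_closed hBc).1 hB.2.isPreconnected _ _
      (isClosed_singleton.preimage hG) (isClosed_singleton.preimage hG) (fun z hz => hG01 z hz) ?_
    rw [Set.disjoint_left]
    intro z h0 h1
    have h0' : G z = 0 := h0
    have h1' : G z = 1 := h1
    rw [h0'] at h1'
    norm_num at h1'
  rcases hside with hs | hs
  · obtain ⟨z, hz, hzO, hzQ⟩ := T.cluster_of_acc hOQ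
    rw [← hAB] at hz
    rcases hz with hz | hz
    · exact hOA z hzO hz
    · have h0 : G z = 0 := hs hz
      have h1 : G z = 1 := hclQ hzQ
      rw [h0] at h1
      norm_num at h1
  · obtain ⟨z, hz, hzO, hzP⟩ := T.cluster_of_acc hOP
    rw [← hAB] at hz
    rcases hz with hz | hz
    · exact hOA z hzO hz
    · have h0 : G z = 1 := hs hz
      have h1 : G z = 0 := hclP hzP
      rw [h0] at h1
      norm_num at h1

/-- no decomposition -/
theorem no_decomposition : ¬ ∃ (M : Set X) (q : X) (K : Set X), IsCompact M ∧ p ∉ M ∧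
    IsContinuum K ∧ q ∈ K ∧ p ∈ K ∧
    (∀ L : Set X, L ⊆ K → IsContinuum L → q ∈ L → p ∈ L → L = K) ∧ M ∪ K = univ := by
  rintro ⟨M, q, K, hM, hpM, hK, hqK, hpK, hirr, hcov⟩
  obtain ⟨N, hN⟩ := T.near_p hM.isClosed.isOpen_compl hpM
  have hNK : ∀ n, N ≤ n → ∀ q, T.e n q ∈ K := by
    intro n hn q
    have : T.e n q ∈ M ∪ K := by rw [hcov]; trivial
    rcases this with h | h
    · exact absurd h (hN n hn q)
    · exact h
  have hqp : q ≠ p := by
    rintro rfl
    have := hirr {q} (by rintro _ rfl; exact hqK) ⟨isCompact_singleton, isConnected_singleton⟩ rfl rfl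
    have h2 := hNK N le_rfl ((fun _ => false, fun _ => false), 0)
    rw [← this] at h2
    exact T.ne _ _ h2
  obtain ⟨n0, q0, hq0⟩ := T.surj q hqp
  set m := max (n0 + 1) N with hm
  -- the lower part
  let Lo : Set X := {x | 1 / ((m : ℝ) + 1) ≤ T.f x}
  let Hi : Set X := {x | T.f x ≤ 1 / ((m : ℝ) + 1)}
  have hLo : IsClosed Lo := isClosed_le continuous_const T.hf
  have hHi : IsClosed Hi := isClosed_le T.hf continuous_const
  have hqLo : q ∈ Lo := by
    show 1 / ((m : ℝ) + 1) ≤ T.f q
    rw [← hq0, T.fe]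
    have h1 := q0.2.2.2
    have h0 := q0.2.2.1
    apply one_div_le_one_div_of_le (by positivity)
    have : ((n0 + 1 : ℕ) : ℝ) ≤ m := by exact_mod_cast le_max_left _ _
    push_cast at this
    linarith
  have hpLo : p ∉ Lo := by
    intro h
    have h1 : 1 / ((m : ℝ) + 1) ≤ T.f p := h
    rw [T.fp] at h1
    have : (0 : ℝ) < 1 / ((m : ℝ) + 1) := by positivity
    linarith
  have hKLo : IsCompact (K ∩ Lo) := hK.1.inter_right hLo
  let C := connectedComponentIn (K ∩ Lo) q
  have hqC : q ∈ C := mem_connectedComponentIn ⟨hqK, hqLo⟩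
  have hCsub : C ⊆ K ∩ Lo := connectedComponentIn_subset _ _
  -- the component reaches the top
  obtain ⟨v, hvC, hv⟩ : ∃ v ∈ C, T.f v = 1 / ((m : ℝ) + 1) := by
    by_contra hcon
    push Not at hcon
    have hsub : connectedComponentIn (K ∩ Lo) q ⊆ Hiᶜ := by
      intro x hx hxHi
      exact hcon x hx (le_antisymm hxHi (hCsub hx).2)
    obtain ⟨D, hDK, hqD, hD1, hD2, hDO⟩ :=
      exists_relclopen hKLo ⟨hqK, hqLo⟩ hHi.isOpen_compl hsub
    have hE : IsClosed (((K ∩ Lo) \ D) ∪ (K ∩ Hi)) := hD2.union (hK.1.isClosed.inter hHi)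
    have hKc := hK.1.isClosed
    have hcovK : K ⊆ D ∪ (((K ∩ Lo) \ D) ∪ (K ∩ Hi)) := by
      intro x hx
      by_cases hxD : x ∈ D
      · exact Or.inl hxD
      · right
        rcases le_total (1 / ((m : ℝ) + 1)) (T.f x) with h | h
        · exact Or.inl ⟨⟨hx, h⟩, hxD⟩
        · exact Or.inr ⟨hx, h⟩
    have hdis : Disjoint D (((K ∩ Lo) \ D) ∪ (K ∩ Hi)) := by
      rw [Set.disjoint_left]
      rintro x hxD (h | h)
      · exact h.2 hxD
      · exact hDO hxD h.2
    rcases (isPreconnected_iff_subset_of_fully_disjoint_closed hKc).1 hK.2.isPreconnected _ _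
      hD1 hE hcovK hdis with h | h
    · exact hpLo (hDK (h hpK)).2
    · exact Set.disjoint_left.1 hdis hqD (h hqK)
  have hvp : v ≠ p := by
    rintro rfl
    exact hpLo (hCsub hvC).2
  -- the point v is a vertex of level m
  obtain ⟨γ, hγ⟩ : ∃ γ : Γ, T.e m (γ, 0) = v := by
    obtain ⟨n, ⟨γ, r⟩, h⟩ := T.surj v hvp
    rw [← h, T.fe] at hv
    have hr0 := r.2.1
    have hr1 := r.2.2
    have h2 : (0 : ℝ) < n + r + 1 := by positivity
    have h3 : (0 : ℝ) < m + 1 := by positivity
    rw [div_eq_div_iff h2.ne' h3.ne'] at hv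
    have hv' : (n : ℝ) + r = m := by linarith
    by_cases hr : r = 1
    · subst hr
      have : n + 1 = m := by
        have : ((n : ℝ) + 1) = m := hv'
        exact_mod_cast this
      refine ⟨(g n γ, γ.2), ?_⟩
      rw [← this, ← T.glue n γ γ.2, h]
    · have hr1' : (r : ℝ) < 1 := lt_of_le_of_ne hr1 (fun h' => hr (Subtype.ext h'))
      have h5 : (n : ℝ) ≤ m := by linarith
      have h6 : (m : ℝ) < n + 1 := by linarith
      have h7 : n ≤ m := by exact_mod_cast h5
      have h8 : m < n + 1 := by exact_mod_cast h6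
      have h9 : n = m := by omega
      subst h9
      have h10 : (r : ℝ) = 0 := by linarith
      have h11 : r = 0 := Subtype.ext h10
      subst h11
      exact ⟨γ, h⟩
  -- the ray
  let w0 : Z := fun _ => false
  let G : ℕ → Γ := fun k => Nat.rec γ (fun j γ' => (g (m + j) γ', w0)) k
  have hG0 : G 0 = γ := rfl
  have hGs : ∀ k, G (k + 1) = (g (m + k) (G k), w0) := fun k => rfl
  let E : ℕ → Set X := fun k => range fun r : unitInterval => T.e (m + k) (G k, r)
  have hE : ∀ k, IsPreconnected (E k) := fun k => T.edge_preconnected _ _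
  have hEm : ∀ k, (E k ∩ E (k + 1)).Nonempty := by
    intro k
    refine ⟨T.e (m + k) (G k, 1), ⟨1, rfl⟩, 0, ?_⟩
    simp only
    rw [hGs, T.glue (m + k) (G k) w0]
    rfl
  have hR : IsPreconnected (⋃ k, E k) := by
    apply IsPreconnected.iUnion_of_chain hE
    intro k
    exact hEm k
  set R := closure (⋃ k, E k) with hRdef
  have hRc : IsPreconnected R := hR.closure
  have hvR : v ∈ R := by
    apply subset_closure
    rw [mem_iUnion]
    exact ⟨0, 0, hγ⟩
  have hpR : p ∈ R := by
    rw [hRdef]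
    refine mem_closure_of_tendsto (T.tendsto_tail (n := fun k => m + k)
      (tendsto_atTop_mono (fun k => Nat.le_add_left k m) tendsto_id) (fun k => (G k, 0))) ?_
    filter_upwards with k
    rw [mem_iUnion]
    exact ⟨k, 0, rfl⟩
  have hmN : N ≤ m := le_max_right _ _
  have hRK : R ⊆ K := by
    apply closure_minimal _ hK.1.isClosed
    apply iUnion_subset
    rintro k _ ⟨r, rfl⟩
    exact hNK _ (by omega) _
  -- the proper subcontinuum
  have hL : IsContinuum (C ∪ R) := by
    have hCc : IsClosed C := by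
      have h1 : closure C ⊆ K ∩ Lo := closure_minimal hCsub (hK.1.isClosed.inter hLo)
      have h2 : IsPreconnected (closure C) := isPreconnected_connectedComponentIn.closure
      have h3 : closure C ⊆ C := h2.subset_connectedComponentIn (subset_closure hqC) h1
      exact closure_eq_iff_isClosed.1 (h3.antisymm subset_closure)
    refine ⟨(hCc.union isClosed_closure).isCompact, ⟨q, Or.inl hqC⟩, ?_⟩
    exact IsPreconnected.union v hvC hvR isPreconnected_connectedComponentIn hRc
  have hLK := hirr (C ∪ R) (union_subset (fun x hx => (hCsub hx).1) hRK) hL (Or.inl hqC)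
    (Or.inr hpR)
  -- a missed point
  let γ' : Γ := (fun i => !(γ.1 i), γ.2)
  have hγγ' : γ' ≠ γ := by
    intro h
    have h1 : (!(γ.1 0)) = γ.1 0 := congrFun (congrArg Prod.fst h) 0
    cases hb : γ.1 0 <;> rw [hb] at h1 <;> exact absurd h1 (by simp)
  let hf : unitInterval := ⟨1 / 2, by norm_num, by norm_num⟩
  have hx : T.e m (γ', hf) ∈ K := hNK _ hmN _
  have hfx : T.f (T.e m (γ', hf)) = 1 / ((m : ℝ) + 1 / 2 + 1) := T.fe _ _
  have hlt1 : T.f (T.e m (γ', hf)) < 1 / ((m : ℝ) + 1) := by
    rw [hfx]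
    apply one_div_lt_one_div_of_lt (by positivity)
    linarith
  have hlt2 : 1 / ((m : ℝ) + 2) < T.f (T.e m (γ', hf)) := by
    rw [hfx]
    apply one_div_lt_one_div_of_lt (by positivity)
    linarith
  rw [← hLK] at hx
  rcases hx with hx | hx
  · have := (hCsub hx).2
    have h1 : 1 / ((m : ℝ) + 1) ≤ T.f (T.e m (γ', hf)) := this
    linarith
  · let F : Set X := (E 0) ∪ {x | T.f x ≤ 1 / ((m : ℝ) + 2)}
    have hF : IsClosed F := by
      apply IsClosed.union
      · have : Continuous fun r : unitInterval => T.e (m + 0) (G 0, r) :=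
          (T.cont _).comp (by fun_prop)
        exact (isCompact_range this).isClosed
      · exact isClosed_le T.hf continuous_const
    have hRF : R ⊆ F := by
      apply closure_minimal _ hF
      apply iUnion_subset
      intro k
      cases k with
      | zero => exact subset_union_left
      | succ k =>
        rintro _ ⟨r, rfl⟩
        right
        show T.f (T.e (m + (k + 1)) (G (k + 1), r)) ≤ 1 / ((m : ℝ) + 2)
        rw [T.fe]
        apply one_div_le_one_div_of_le (by positivity)
        push_cast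
        have := r.2.1
        have : (0 : ℝ) ≤ k := by positivity
        linarith
    rcases hRF hx with ⟨r, hr⟩ | h
    · have hr : T.e m (γ, r) = T.e m (γ', hf) := hr
      have hl := T.level hr
      simp only at hl
      have hr2 : (r : ℝ) = 1 / 2 := by
        have : (hf : ℝ) = 1 / 2 := rfl
        rw [this] at hl
        linarith
      have hr3 : r = hf := Subtype.ext hr2
      rw [hr3] at hr
      have hpos : (0 : unitInterval) < hf := by
        show (0 : ℝ) < 1 / 2
        norm_num
      have hlt : hf < (1 : unitInterval) := by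
        show (1 / 2 : ℝ) < 1
        norm_num
      exact hγγ' (T.inj m γ' γ hf hpos hlt hr.symm)
    · have h' : T.f (T.e m (γ', hf)) ≤ 1 / ((m : ℝ) + 2) := h
      linarith

end Tel

end Pool.Agent.H70
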