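import Mathlib
import Pool.Agent.H70.Indec

/-! A concrete model of the telescope. -/

open Set Filter Topology

set_option linter.unusedSectionVars false

namespace Pool.Agent.H70

/-- real value of a Boolean -/
noncomputable def bo (b : Bool) : ℝ := if b then 1 else 0

lemma bo_inj {a b : Bool} (h : bo a = bo b) : a = b := by
  cases a <;> cases b <;> simp [bo] at h ⊢

lemma bo_nonneg (b : Bool) : 0 ≤ bo b := by cases b <;> simp [bo]

lemma bo_le (b : Bool) : bo b ≤ 1 := by cases b <;> simp [bo]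

/-- the ambient space -/
abbrev V := ℝ × (ℕ → ℝ) × (ℕ → ℝ) × (ℕ → ℝ)

/-- the parametrisation -/
noncomputable def Phi (n : ℕ) (q : Γ × unitInterval) : V :=
  (1 / ((n : ℝ) + (q.2 : ℝ) + 1),
   fun i => ((1 - (q.2 : ℝ)) * bo (q.1.1 i) + (q.2 : ℝ) * bo (g n q.1 i)) / ((n : ℝ) + (q.2 : ℝ) + 1),
   fun i => ((q.2 : ℝ) * (1 - (q.2 : ℝ)) * bo (q.1.1 i)) / ((n : ℝ) + (q.2 : ℝ) + 1),
   fun i => ((q.2 : ℝ) * (1 - (q.2 : ℝ)) * bo (q.1.2 i)) / ((n : ℝ) + (q.2 : ℝ) + 1))

lemma bo_cont : Continuous bo := continuous_of_discreteTopology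

lemma den_pos (n : ℕ) (r : unitInterval) : (0 : ℝ) < (n : ℝ) + (r : ℝ) + 1 := by
  have := r.2.1
  positivity

lemma Phi_cont (n : ℕ) : Continuous (Phi n) := by
  have c0 : Continuous fun q : Γ × unitInterval => (n : ℝ) + (q.2 : ℝ) + 1 := by fun_prop
  have cr : Continuous fun q : Γ × unitInterval => (q.2 : ℝ) :=
    continuous_subtype_val.comp continuous_snd
  have c1 : ∀ i, Continuous fun q : Γ × unitInterval => bo (q.1.1 i) := fun i =>
    bo_cont.comp ((continuous_apply i).comp (continuous_fst.comp continuous_fst))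
  have c2 : ∀ i, Continuous fun q : Γ × unitInterval => bo (q.1.2 i) := fun i =>
    bo_cont.comp ((continuous_apply i).comp (continuous_snd.comp continuous_fst))
  have c3 : ∀ i, Continuous fun q : Γ × unitInterval => bo (g n q.1 i) := fun i => by
    have h1 : Continuous fun q : Γ × unitInterval => g n q.1 := (g_cont n).comp continuous_fst
    exact bo_cont.comp ((continuous_apply i).comp h1)
  have hne : ∀ q : Γ × unitInterval, (n : ℝ) + (q.2 : ℝ) + 1 ≠ 0 := fun q => (den_pos n q.2).ne'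
  unfold Phi
  refine Continuous.prodMk ?_ (Continuous.prodMk ?_ (Continuous.prodMk ?_ ?_))
  · exact continuous_const.div c0 hne
  · refine continuous_pi fun i => ?_
    exact (((continuous_const.sub cr).mul (c1 i)).add (cr.mul (c3 i))).div c0 hne
  · refine continuous_pi fun i => ?_
    exact ((cr.mul (continuous_const.sub cr)).mul (c1 i)).div c0 hne
  · refine continuous_pi fun i => ?_
    exact ((cr.mul (continuous_const.sub cr)).mul (c2 i)).div c0 hne

lemma frac_le {n : ℕ} {r : unitInterval} {x : ℝ} (h0 : 0 ≤ x) (h1 : x ≤ 1) :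
    |x / ((n : ℝ) + (r : ℝ) + 1)| ≤ 1 / ((n : ℝ) + 1) := by
  have hd := den_pos n r
  have hr := r.2.1
  rw [abs_of_nonneg (div_nonneg h0 hd.le)]
  exact div_le_div₀ zero_le_one h1 (by positivity) (by linarith)

lemma mul_bounds {a b : ℝ} (ha : 0 ≤ a) (ha1 : a ≤ 1) (hb : 0 ≤ b) (hb1 : b ≤ 1) :
    0 ≤ a * b ∧ a * b ≤ 1 :=
  ⟨mul_nonneg ha hb, mul_le_one₀ ha1 hb hb1⟩

lemma Phi_tendsto : Tendsto (fun x : ℕ × (Γ × unitInterval) => Phi x.1 x.2)
    (comap Prod.fst atTop) (𝓝 (0 : V)) := by
  have h0 : Tendsto (fun x : ℕ × (Γ × unitInterval) => 1 / ((x.1 : ℝ) + 1)) (comap Prod.fst atTop)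
      (𝓝 0) := tendsto_one_div_add_atTop_nhds_zero_nat.comp tendsto_comap
  have key : ∀ F : ℕ × (Γ × unitInterval) → ℝ, (∀ x, 0 ≤ F x) → (∀ x, F x ≤ 1) →
      Tendsto (fun x : ℕ × (Γ × unitInterval) => F x / ((x.1 : ℝ) + (x.2.2 : ℝ) + 1))
        (comap Prod.fst atTop) (𝓝 0) := by
    intro F h1 h2
    rw [tendsto_zero_iff_abs_tendsto_zero]
    exact squeeze_zero (fun x => abs_nonneg _) (fun x => frac_le (h1 x) (h2 x)) h0
  have e : (0 : V) = ((0 : ℝ), (fun _ => (0 : ℝ)), (fun _ => (0 : ℝ)), (fun _ => (0 : ℝ))) := rfl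
  rw [e]
  unfold Phi
  refine Tendsto.prodMk_nhds ?_ (Tendsto.prodMk_nhds ?_ (Tendsto.prodMk_nhds ?_ ?_))
  · exact key (fun _ => 1) (fun _ => zero_le_one) (fun _ => le_rfl)
  · rw [tendsto_pi_nhds]
    intro i
    refine key (fun x => (1 - (x.2.2 : ℝ)) * bo (x.2.1.1 i) + (x.2.2 : ℝ) * bo (g x.1 x.2.1 i)) ?_ ?_
    · intro x
      have h1 := x.2.2.2.1
      have h2 := x.2.2.2.2
      have h3 := bo_nonneg (x.2.1.1 i)
      have h4 := bo_nonneg (g x.1 x.2.1 i)
      have h5 : 0 ≤ 1 - (x.2.2 : ℝ) := by linarith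
      positivity
    · intro x
      have h1 := x.2.2.2.1
      have h2 := x.2.2.2.2
      have h3 := bo_le (x.2.1.1 i)
      have h4 := bo_le (g x.1 x.2.1 i)
      have h5 : 0 ≤ 1 - (x.2.2 : ℝ) := by linarith
      have h6 := mul_le_mul_of_nonneg_left h3 h5
      have h7 := mul_le_mul_of_nonneg_left h4 h1
      linarith
  · rw [tendsto_pi_nhds]
    intro i
    refine key (fun x => (x.2.2 : ℝ) * (1 - (x.2.2 : ℝ)) * bo (x.2.1.1 i)) (fun x => ?_) (fun x => ?_)
    · have h1 := x.2.2.2.1
      have h2 := x.2.2.2.2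
      exact (mul_bounds (mul_bounds h1 h2 (by linarith) (by linarith)).1
        (mul_bounds h1 h2 (by linarith) (by linarith)).2 (bo_nonneg _) (bo_le _)).1
    · have h1 := x.2.2.2.1
      have h2 := x.2.2.2.2
      exact (mul_bounds (mul_bounds h1 h2 (by linarith) (by linarith)).1
        (mul_bounds h1 h2 (by linarith) (by linarith)).2 (bo_nonneg _) (bo_le _)).2
  · rw [tendsto_pi_nhds]
    intro i
    refine key (fun x => (x.2.2 : ℝ) * (1 - (x.2.2 : ℝ)) * bo (x.2.1.2 i)) (fun x => ?_) (fun x => ?_)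
    · have h1 := x.2.2.2.1
      have h2 := x.2.2.2.2
      exact (mul_bounds (mul_bounds h1 h2 (by linarith) (by linarith)).1
        (mul_bounds h1 h2 (by linarith) (by linarith)).2 (bo_nonneg _) (bo_le _)).1
    · have h1 := x.2.2.2.1
      have h2 := x.2.2.2.2
      exact (mul_bounds (mul_bounds h1 h2 (by linarith) (by linarith)).1
        (mul_bounds h1 h2 (by linarith) (by linarith)).2 (bo_nonneg _) (bo_le _)).2

/-- the telescope as a set -/
def XS : Set V := {x | x = 0 ∨ ∃ n q, Phi n q = x}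

lemma XS_compact : IsCompact XS := by
  apply isCompact_of_finite_subcover
  intro ι U hU hsub
  obtain ⟨i0, hi0⟩ := mem_iUnion.1 (hsub (Or.inl rfl : (0 : V) ∈ XS))
  have h1 := Phi_tendsto ((hU i0).mem_nhds hi0)
  rw [mem_map, mem_comap] at h1
  obtain ⟨s, hs, hsub2⟩ := h1
  obtain ⟨N, hN⟩ := mem_atTop_sets.1 hs
  have hK : IsCompact (⋃ n ∈ Finset.range N, range (Phi n)) :=
    (Finset.range N).isCompact_biUnion fun n _ => isCompact_range (Phi_cont n)
  obtain ⟨t, ht⟩ := hK.elim_finite_subcover U hU (by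
    intro x hx
    apply hsub
    simp only [mem_iUnion] at hx
    obtain ⟨n, _, q, hq⟩ := hx
    exact Or.inr ⟨n, q, hq⟩)
  classical
  refine ⟨insert i0 t, ?_⟩
  rintro x (rfl | ⟨n, q, rfl⟩)
  · simp only [mem_iUnion]
    exact ⟨i0, Finset.mem_insert_self _ _, hi0⟩
  · by_cases hn : N ≤ n
    · simp only [mem_iUnion]
      refine ⟨i0, Finset.mem_insert_self _ _, ?_⟩
      exact hsub2 (show (n, q) ∈ Prod.fst ⁻¹' s from hN n hn)
    · have : Phi n q ∈ ⋃ i ∈ t, U i := by
        apply ht
        simp only [mem_iUnion, Finset.mem_range]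
        exact ⟨n, not_le.1 hn, q, rfl⟩
      simp only [mem_iUnion] at this ⊢
      obtain ⟨i, hi, h⟩ := this
      exact ⟨i, Finset.mem_insert_of_mem hi, h⟩

lemma exists_tel : ∃ (X : Type) (_ : MetricSpace X) (_ : CompactSpace X) (p : X),
    Nonempty (Tel X p) := by
  have hcs : CompactSpace XS := isCompact_iff_compactSpace.1 XS_compact
  have hmet : TopologicalSpace.MetrizableSpace XS :=
    TopologicalSpace.metrizableSpace_of_t3_secondCountable XS
  have hPhi2 : ∀ n (γ : Γ) i, (Phi n (γ, 0)).2.1 i = bo (γ.1 i) / ((n : ℝ) + 1) := by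
    intro n γ i
    simp [Phi]
  refine ⟨XS, TopologicalSpace.metrizableSpaceMetric XS, hcs, ⟨0, Or.inl rfl⟩, ⟨?_⟩⟩
  exact
    { e := fun n q => ⟨Phi n q, Or.inr ⟨n, q, rfl⟩⟩
      cont := fun n => (Phi_cont n).subtype_mk _
      f := fun x => x.1.1
      hf := continuous_fst.comp continuous_subtype_val
      fp := rfl
      fe := fun n q => rfl
      surj := by
        rintro ⟨x, rfl | ⟨n, q, rfl⟩⟩ hx
        · exact absurd rfl hx
        · exact ⟨n, q, rfl⟩
      glue := by
        intro n γ w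
        apply Subtype.ext
        simp [Phi]
      inj := by
        intro n γ γ' r hr0 hr1 h
        have h' : Phi n (γ, r) = Phi n (γ', r) := congrArg Subtype.val h
        have h3 := congrArg (fun v : V => v.2.2.1) h'
        have h4 := congrArg (fun v : V => v.2.2.2) h'
        simp only [Phi] at h3 h4
        have hd := den_pos n r
        have hr0' : (0 : ℝ) < r := hr0
        have hr1' : (r : ℝ) < 1 := hr1
        have hp : (0 : ℝ) < r * (1 - r) := mul_pos hr0' (by linarith)
        apply Prod.ext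
        · funext i
          have := congrFun h3 i
          rw [div_left_inj' hd.ne'] at this
          exact bo_inj (mul_left_cancel₀ hp.ne' this)
        · funext i
          have := congrFun h4 i
          rw [div_left_inj' hd.ne'] at this
          exact bo_inj (mul_left_cancel₀ hp.ne' this)
      vert := by
        intro n γ γ' h
        apply Subtype.ext
        simp [Phi, h]
      inj0 := by
        intro n γ γ' h
        have h' : Phi n (γ, 0) = Phi n (γ', 0) := congrArg Subtype.val h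
        funext i
        have h2 : (Phi n (γ, 0)).2.1 i = (Phi n (γ', 0)).2.1 i := by rw [h']
        rw [hPhi2, hPhi2] at h2
        have hd : (n : ℝ) + 1 ≠ 0 := by positivity
        rw [div_left_inj' hd] at h2
        exact bo_inj h2 }

end Pool.Agent.H70
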